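import Pool.Agent.Work.MP_701abf_gt.Cob.Defs
import Pool.Agent.Work.MP_701abf_gt.Stab.Good

/-!
Comparison of the cobar complex with the cochains without coefficients.
-/

open MvPolynomial
open Finset.HasAntidiagonal (antidiagonal mem_antidiagonal)
open Pool.Agent.Work.MP_701abf_gt.Stab

namespace Pool.Agent.Work.MP_701abf_gt.Cob

/-- The comparison map: reversal of the slots. -/
noncomputable def th (s : ℕ) : Cobar s →ₐ[ZMod 2] RR Empty :=
  aeval fun v => X (Sum.inl (s - 1 - (v.1 : ℕ), v.2))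

lemma th_X (s : ℕ) (v : Fin s × ℕ) : th s (X v) = X (Sum.inl (s - 1 - (v.1 : ℕ), v.2)) := by
  unfold th; rw [aeval_X]

lemma th_xi (s : ℕ) (i : Fin s) (n : ℕ) : th s (xi i n) = (gG (s - 1 - (i : ℕ))).co n := by
  cases n with
  | zero => exact map_one _
  | succ n => exact th_X s (i, n)

/-- The inverse of the comparison map. -/
noncomputable def ps (s : ℕ) : RR Empty →ₐ[ZMod 2] Cobar s :=
  aeval (Sum.elim (fun v => if h : v.1 < s then X (⟨s - 1 - v.1, by omega⟩, v.2) else 0)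
    (fun v => v.1.elim))

lemma ps_lt {s : ℕ} {v : ℕ × ℕ} (h : v.1 < s) :
    ps s (X (Sum.inl v)) = X (⟨s - 1 - v.1, by omega⟩, v.2) := by
  unfold ps; rw [aeval_X]; exact dif_pos h

lemma ps_ge {s : ℕ} {v : ℕ × ℕ} (h : ¬ v.1 < s) : ps s (X (Sum.inl v)) = 0 := by
  unfold ps; rw [aeval_X]; exact dif_neg h

lemma ps_th (s : ℕ) (p : Cobar s) : ps s (th s p) = p := by
  have : (ps s).comp (th s) = AlgHom.id _ _ := by
    refine algHom_ext fun v => ?_
    rw [AlgHom.comp_apply, th_X, ps_lt (by have := v.1.2; simp only; omega)]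
    change X _ = X v
    congr 1
    refine Prod.ext (Fin.ext ?_) rfl
    have := v.1.2
    simp only
    omega
  exact congrArg (fun φ => φ p) this

lemma th_ps (s : ℕ) (F : RR Empty) : th s (ps s F) = prj s F := by
  have : (th s).comp (ps s) = prj s := by
    refine algHom_ext fun v => ?_
    rw [AlgHom.comp_apply]
    rcases v with v | v
    · by_cases hv : v.1 < s
      · rw [ps_lt hv, th_X, prj_inl_lt hv]
        congr 2
        refine Prod.ext ?_ rfl
        simp only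
        omega
      · rw [ps_ge hv, prj_inl_ge hv, map_zero]
    · exact v.1.elim
  exact congrArg (fun φ => φ F) this

lemma th_inj (s : ℕ) {p q : Cobar s} (h : th s p = th s q) : p = q := by
  rw [← ps_th s p, h, ps_th]

lemma th_lev (s : ℕ) (p : Cobar s) : th s p ∈ lev Empty (s + 1) := by
  rw [mem_lev_succ]
  have : (prj s).comp (th s) = th s := by
    refine algHom_ext fun v => ?_
    rw [AlgHom.comp_apply, th_X, prj_inl_lt (by have := v.1.2; simp only; omega)]
  exact congrArg (fun φ => φ p) this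

lemma th_surj {s : ℕ} {F : RR Empty} (hF : F ∈ lev Empty (s + 1)) : th s (ps s F) = F := by
  rw [th_ps, mem_lev_succ.1 hF]

lemma th_coface {s j : ℕ} (hj : j ≤ s + 1) (p : Cobar s) :
    th (s + 1) (coface s j p) = face (fun _ => 0) (s + 1 - j) (th s p) := by
  have : (th (s + 1)).comp (coface s j) = (face (fun _ => 0) (s + 1 - j)).comp (th s) := by
    refine algHom_ext fun v => ?_
    rw [AlgHom.comp_apply, AlgHom.comp_apply, th_X, face_inl]
    unfold coface
    rw [aeval_X]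
    have hv := v.1.2
    rcases lt_trichotomy ((v.1 : ℕ) + 1) j with h | h | h
    · rw [if_pos h, th_X]
      simp only [Fin.val_castSucc]
      have e : (fg (s + 1 - j) gG (s - 1 - (v.1 : ℕ)) : Pt (RR Empty)) =
          gG (s - 1 - (v.1 : ℕ) + 1) := by
        rcases Nat.eq_zero_or_pos (s + 1 - j) with h1 | h1
        · rw [h1]; rfl
        · obtain ⟨k, hk⟩ : ∃ k, s + 1 - j = k + 1 := ⟨s - j, by omega⟩
          rw [hk]
          simp only [fg]
          rw [if_neg (by omega), if_neg (by omega)]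
      rw [e, gG_succ]
      congr 3
      omega
    · rw [if_neg (by omega), if_pos h, map_sum]
      obtain ⟨k, hk⟩ : ∃ k, s + 1 - j = k + 1 := ⟨s - j, by omega⟩
      rw [hk]
      simp only [fg]
      rw [if_neg (by omega), if_pos (by omega), Pt.co_mul]
      refine Finset.sum_congr rfl fun p _ => ?_
      rw [map_mul, map_pow, th_xi, th_xi]
      simp only [Fin.val_castSucc, Fin.val_succ]
      have e1 : s + 1 - 1 - (v.1 : ℕ) = k + 1 := by omega
      have e2 : s + 1 - 1 - ((v.1 : ℕ) + 1) = k := by omega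
      rw [e1, e2]
    · rw [if_neg (by omega), if_neg (by omega), th_X]
      simp only [Fin.val_succ]
      obtain ⟨k, hk⟩ : ∃ k, s + 1 - j = k + 1 := ⟨s - j, by omega⟩
      rw [hk]
      simp only [fg]
      rw [if_pos (by omega), gG_succ]
      congr 3
      omega
  exact congrArg (fun φ => φ p) this

lemma th_d (s : ℕ) (p : Cobar s) : th (s + 1) (cobarD s p) = dE (s + 1) (th s p) := by
  rw [cobarD_apply, map_sum, dR_apply]
  rw [← Finset.sum_range_reflect]
  refine Finset.sum_congr rfl fun j hj => ?_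
  have := Finset.mem_range.1 hj
  rw [th_coface (by omega)]
  congr 2
  omega

/-- The weights of the comparison map. -/
def fN : ℕ →+ (ℤ × ℤ) × ℤ where
  toFun n := (0, (n : ℤ))
  map_zero' := by simp
  map_add' x y := by simp

lemma fN_inj : Function.Injective fN := by
  intro x y h
  have h2 := (Prod.mk.inj h).2
  exact_mod_cast h2

lemma th_gr (s : ℕ) : Gr (fun v : Fin s × ℕ => 2 ^ (v.2 + 1) - 1) wE fN (th s).toLinearMap := by
  refine Gr.of_alg fun v => ?_
  rw [th_X]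
  have h := isWeightedHomogeneous_X (ZMod 2) wE (Sum.inl (s - 1 - (v.1 : ℕ), v.2))
  have e : fN (2 ^ (v.2 + 1) - 1) = wE (Sum.inl (s - 1 - (v.1 : ℕ), v.2)) := by
    change ((0 : ℤ × ℤ), (((2 ^ (v.2 + 1) - 1 : ℕ)) : ℤ)) = (0, 2 ^ (v.2 + 1) - 1)
    rw [Nat.cast_sub Nat.one_le_two_pow]
    push_cast
    rfl
  rw [e]
  exact h

lemma th_Hom {s t : ℕ} {p : Cobar s} (hp : p ∈ Hom s t) : WH wE (th s p) (0, (t : ℤ)) :=
  (th_gr s).map hp

lemma ps_gr (s : ℕ) : Gr wE (fun v : Fin s × ℕ => fN (2 ^ (v.2 + 1) - 1)) id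
    (ps s).toLinearMap := by
  refine Gr.of_alg' fun v => ?_
  rcases v with v | v
  · by_cases hv : v.1 < s
    · rw [ps_lt hv]
      have h := isWeightedHomogeneous_X (ZMod 2) (fun v : Fin s × ℕ => fN (2 ^ (v.2 + 1) - 1))
        (⟨s - 1 - v.1, by omega⟩, v.2)
      have e : fN (2 ^ (v.2 + 1) - 1) = wE (Sum.inl v) := by
        change ((0 : ℤ × ℤ), (((2 ^ (v.2 + 1) - 1 : ℕ)) : ℤ)) = (0, 2 ^ (v.2 + 1) - 1)
        rw [Nat.cast_sub Nat.one_le_two_pow]
        push_cast
        rfl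
      simp only [e] at h
      exact h
    · rw [ps_ge hv]
      exact isWeightedHomogeneous_zero _ _ _
  · exact v.1.elim

lemma ps_Hom {s t : ℕ} {F : RR Empty} (hF : WH wE F (0, (t : ℤ))) : ps s F ∈ Hom s t := by
  have h := (ps_gr s).map hF
  rcases wh_of_comp (w := fun v : Fin s × ℕ => 2 ^ (v.2 + 1) - 1) fN_inj h with h0 | ⟨m, hm, h2⟩
  · have h0' : ps s F = 0 := h0
    rw [h0']
    exact Submodule.zero_mem _
  · have e : m = t := fN_inj hm
    rw [e] at h2
    exact h2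

/-- Cocycles correspond. -/
lemma th_Zc {s t : ℕ} {p : Cobar s} (hp : p ∈ Zc s t) :
    th s p ∈ lev Empty (s + 1) ∧ WH wE (th s p) (0, (t : ℤ)) ∧ dE (s + 1) (th s p) = 0 := by
  refine ⟨th_lev s p, th_Hom hp.1, ?_⟩
  have h2 : cobarD s p = 0 := hp.2
  rw [← th_d, h2, map_zero]

lemma ps_d {s : ℕ} {F : RR Empty} (hF : F ∈ lev Empty (s + 1)) :
    cobarD s (ps s F) = ps (s + 1) (dE (s + 1) F) := by
  apply th_inj
  rw [th_d, th_surj hF, th_surj (dR_lev _ hF)]

lemma ps_Zc {s t : ℕ} {F : RR Empty} (hF : F ∈ lev Empty (s + 1)) (hw : WH wE F (0, (t : ℤ)))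
    (hd : dE (s + 1) F = 0) : ps s F ∈ Zc s t := by
  refine ⟨ps_Hom hw, ?_⟩
  change cobarD s (ps s F) = 0
  rw [ps_d hF, hd, map_zero]

/-- Coboundaries correspond. -/
lemma mem_Bc {s t : ℕ} {p : Cobar s} :
    p ∈ Bc s t ↔ ∃ G ∈ lev Empty s, WH wE G (0, (t : ℤ)) ∧ dE s G = th s p := by
  cases s with
  | zero =>
    constructor
    · intro h
      have h0 : p = 0 := h
      refine ⟨0, Submodule.zero_mem _, isWeightedHomogeneous_zero _ _ _, ?_⟩
      rw [h0, map_zero, map_zero]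
    · rintro ⟨G, hG, _, e⟩
      have h0 : G = 0 := hG
      rw [h0, map_zero] at e
      have : p = 0 := th_inj 0 (by rw [← e, map_zero])
      rw [this]
      exact Submodule.zero_mem _
  | succ s =>
    constructor
    · rintro ⟨q, hq, rfl⟩
      exact ⟨th s q, th_lev s q, th_Hom hq, (th_d s q).symm⟩
    · rintro ⟨G, hG, hw, e⟩
      refine ⟨ps s G, ps_Hom hw, ?_⟩
      apply th_inj
      rw [th_d, th_surj hG, e]

lemma cls_zero {s t : ℕ} (x : Zc s t) : cls x = 0 ↔ (x : Cobar s) ∈ Bc s t := by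
  unfold cls
  rw [Submodule.Quotient.mk_eq_zero]
  rfl

lemma cls_surj {s t : ℕ} (x : Ext s t) : ∃ z : Zc s t, cls z = x :=
  Submodule.Quotient.mk_surjective _ x

lemma Sq0_cls {s t : ℕ} (x : Zc s t) :
    Sq0 s t (cls x) = cls ⟨(x : Cobar s) ^ 2, sqMap_Zc x.2⟩ := rfl

/-- Stability of `Sq^0`. -/
theorem Sq0_bijective (s : ℕ) : ∃ J : ℕ, ∀ t : ℕ, 2 ^ J ∣ t → Function.Bijective (Sq0 s t) := by
  obtain ⟨J, hJ⟩ := stability s
  refine ⟨J, fun t ht => ?_⟩
  obtain ⟨hs, hi⟩ := hJ t (by exact_mod_cast ht)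
  constructor
  · rw [← LinearMap.ker_eq_bot, LinearMap.ker_eq_bot']
    intro x hx
    obtain ⟨z, rfl⟩ := cls_surj x
    rw [Sq0_cls, cls_zero, mem_Bc] at hx
    obtain ⟨G, hG, hGw, e⟩ := hx
    rw [cls_zero, mem_Bc]
    have h1 := th_Zc z.2
    obtain ⟨y, hy, hyw, ey⟩ := hi (th s z) h1.1 h1.2.1 G hG (by exact_mod_cast hGw)
      (by rw [e, map_pow])
    exact ⟨y, hy, hyw, ey⟩
  · intro x
    obtain ⟨z, rfl⟩ := cls_surj x
    have h1 := th_Zc z.2
    obtain ⟨y, hy, hyw, hyd, G, hG, hGw, e⟩ := hs (th s z) h1.1 (by exact_mod_cast h1.2.1) h1.2.2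
    refine ⟨cls ⟨ps s y, ps_Zc hy hyw hyd⟩, ?_⟩
    rw [Sq0_cls]
    have h2 : cls (⟨ps s y ^ 2, sqMap_Zc (ps_Zc hy hyw hyd)⟩ : Zc s (2 * t)) - cls z = 0 := by
      have h3 : cls (⟨ps s y ^ 2, sqMap_Zc (ps_Zc hy hyw hyd)⟩ : Zc s (2 * t)) - cls z =
        cls (⟨ps s y ^ 2, sqMap_Zc (ps_Zc hy hyw hyd)⟩ - z) := rfl
      rw [h3, cls_zero, mem_Bc]
      refine ⟨G, hG, by exact_mod_cast hGw, ?_⟩
      change dE s G = th s (ps s y ^ 2 - z)
      rw [map_sub, map_pow, th_surj hy, e, sub_eq2, ← add_assoc, add_self2, zero_add]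
    exact sub_eq_zero.1 h2

end Pool.Agent.Work.MP_701abf_gt.Cob
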