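import Pool.Agent.Work.MP_701abf_gt.Cob.Spread

/-!
Clusters: bounds for the dimensions of the groups `Ext^{s,t}`.
-/

open MvPolynomial Module
open Pool.Agent.Work.MP_701abf_gt.Stab

namespace Pool.Agent.Work.MP_701abf_gt.Cob

/-- `t` is a sum of `k` numbers of the form `2 ^ a * u` with `u ≤ U`. -/
inductive Clus (U : ℕ) : ℕ → ℕ → Prop
  | zero : Clus U 0 0
  | succ {k t : ℕ} (a u : ℕ) (hu : u ≤ U) (h : Clus U k t) : Clus U (k + 1) (2 ^ a * u + t)

lemma Clus.add_zero {U k t : ℕ} (h : Clus U k t) (n : ℕ) : Clus U (k + n) t := by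
  induction n with
  | zero => exact h
  | succ n ih =>
    have := Clus.succ 0 0 (Nat.zero_le U) ih
    rw [mul_zero, _root_.zero_add] at this
    exact this

lemma Clus.mono {U U' k k' t : ℕ} (hU : U ≤ U') (hk : k ≤ k') (h : Clus U k t) :
    Clus U' k' t := by
  have h1 : Clus U' k t := by
    clear hk
    induction h with
    | zero => exact Clus.zero
    | succ a u hu _ ih => exact Clus.succ a u (hu.trans hU) ih
  have h2 := h1.add_zero (k' - k)
  rw [Nat.add_sub_cancel' hk] at h2
  exact h2

lemma Clus.double {U k t : ℕ} (h : Clus U k t) : Clus U k (2 * t) := by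
  induction h with
  | zero => exact Clus.zero
  | @succ k t a u hu _ ih =>
    have := Clus.succ (a + 1) u hu ih
    rw [show 2 ^ (a + 1) * u + 2 * t = 2 * (2 ^ a * u + t) by rw [pow_succ]; ring] at this
    exact this

lemma Clus.add {U k k' t t' : ℕ} (h : Clus U k t) (h' : Clus U k' t') :
    Clus U (k + k') (t + t') := by
  induction h with
  | zero => rw [_root_.zero_add, _root_.zero_add]; exact h'
  | @succ k t a u hu _ ih =>
    have := Clus.succ a u hu ih
    rw [← add_assoc] at this
    rw [show k + 1 + k' = k + k' + 1 by ring]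
    exact this

lemma Clus.single {U t : ℕ} (h : t ≤ U) : Clus U 1 t := by
  have := Clus.succ 0 t h Clus.zero
  rw [pow_zero, one_mul] at this
  exact this

lemma Spread.clus {L s t : ℕ} (h : Spread L s t) : Clus 1 s t := by
  induction h with
  | one a =>
    have := Clus.succ a 1 le_rfl Clus.zero
    rw [mul_one] at this
    exact this
  | @succ s t a _ _ ih =>
    have := Clus.succ a 1 le_rfl ih
    rw [mul_one, add_comm (2 ^ a) t] at this
    exact this

lemma Spread.double {L s t : ℕ} (h : Spread L s t) : Spread L s (2 * t) := by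
  induction h with
  | one a =>
    have := Spread.one (L := L) (a + 1)
    rw [pow_succ, mul_comm] at this
    exact this
  | @succ s t a _ hd ih =>
    have h1 : 2 ^ (a + 1 + 1 + L) ∣ 2 * t := by
      rw [show a + 1 + 1 + L = (a + 1 + L) + 1 by ring, pow_succ, mul_comm]
      exact Nat.mul_dvd_mul_left 2 hd
    have := Spread.succ (a + 1) ih h1
    rw [show 2 * t + 2 ^ (a + 1) = 2 * (t + 2 ^ a) by rw [pow_succ]; ring] at this
    exact this

lemma Spread.concat {L i j a N M : ℕ} (hN : Spread L i N) (hM : Spread L j M) (h1 : M < 2 ^ a)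
    (h2 : 2 ^ (a + L) ∣ N) : Spread L (i + j) (N + M) := by
  induction hM with
  | one b =>
    refine Spread.succ b hN ((pow_dvd_pow 2 ?_).trans h2)
    have : b < a := (Nat.pow_lt_pow_iff_right (by norm_num)).1 h1
    omega
  | @succ j t b _ hd ih =>
    have h3 := ih (lt_of_le_of_lt (Nat.le_add_right _ _) h1)
    have h4 : b < a := (Nat.pow_lt_pow_iff_right (a := 2) (by norm_num)).1
      (lt_of_le_of_lt (Nat.le_add_left _ _) h1)
    have := Spread.succ b h3 (Dvd.dvd.add ((pow_dvd_pow 2 (by omega)).trans h2) hd)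
    rw [add_assoc N t (2 ^ b)] at this
    exact this

/-- The bound on the line `s`. -/
def Bd (s : ℕ) : Prop :=
  ∀ L : ℕ, ∃ U C : ℕ, ∀ t : ℕ, dm s t ≤ C ∧ (dm s t ≠ 0 → Clus U (s - 1) t ∨ Spread L s t)

lemma bd_one : Bd 1 := by
  intro L
  refine ⟨0, max 1 (dm 1 0), fun t => ?_⟩
  rcases Nat.eq_zero_or_pos t with h0 | h0
  · subst h0
    exact ⟨le_max_right _ _, fun _ => Or.inl Clus.zero⟩
  · by_cases h : dm 1 t = 0
    · rw [h]
      exact ⟨Nat.zero_le _, fun h => absurd rfl h⟩
    · obtain ⟨a, rfl⟩ := dm_one_ne h0 h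
      rw [dm_one_pow]
      exact ⟨le_max_left _ _, fun _ => Or.inr (Spread.one a)⟩

lemma ex_two {P : ℕ → ℕ → ℕ → Prop}
    (hm : ∀ k U U' C C', U ≤ U' → C ≤ C' → P k U C → P k U' C') (n : ℕ)
    (h : ∀ k < n, ∃ U C, P k U C) : ∃ U C, ∀ k < n, P k U C := by
  induction n with
  | zero => exact ⟨0, 0, fun k hk => by omega⟩
  | succ n ih =>
    obtain ⟨U1, C1, h1⟩ := ih fun k hk => h k (by omega)
    obtain ⟨U2, C2, h2⟩ := h n (by omega)
    refine ⟨max U1 U2, max C1 C2, fun k hk => ?_⟩
    rcases Nat.lt_succ_iff_lt_or_eq.1 hk with h3 | h3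
    · exact hm _ _ _ _ _ (le_max_left _ _) (le_max_left _ _) (h1 k h3)
    · rw [h3]; exact hm _ _ _ _ _ (le_max_right _ _) (le_max_right _ _) h2

theorem bd (s : ℕ) (hs : 1 ≤ s) : Bd s := by
  induction s using Nat.strong_induction_on with
  | _ s IH =>
    by_cases h1 : s = 1
    · subst h1
      exact bd_one
    intro L
    obtain ⟨L1, hL1⟩ := kunneth_bij s
    obtain ⟨B, hB⟩ := line_structure s (L + L1)
    obtain ⟨U', C', hUC⟩ := ex_two (P := fun k U C => 1 ≤ k → ∀ t : ℕ, dm k t ≤ C ∧
        (dm k t ≠ 0 → Clus U (k - 1) t ∨ Spread L k t))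
      (fun k U U' C C' hU hC h hk t => ⟨(h hk t).1.trans hC, fun h2 =>
        ((h hk t).2 h2).imp (fun h3 => h3.mono hU le_rfl) id⟩) s
      (fun k hk => by
        by_cases hk1 : 1 ≤ k
        · obtain ⟨U, C, h⟩ := IH k hk hk1 L
          exact ⟨U, C, fun _ => h⟩
        · exact ⟨0, 0, fun h => absurd h hk1⟩)
    set C0 := (Finset.range (B + 1)).sup (dm s) with hC0
    refine ⟨B + U' + 1, C0 + (s + 1) * (C' * C'), fun t => ?_⟩
    induction t using Nat.strong_induction_on with
    | _ t IHt =>
      by_cases ht : t ≤ B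
      · refine ⟨(Finset.le_sup (f := dm s) (Finset.mem_range.2 (by omega))).trans
          (Nat.le_add_right _ _), fun _ => Or.inl ?_⟩
        exact (Clus.single (U := B) ht).mono (by omega) (by omega)
      rcases hB t (by omega) with h | ⟨t', h, hb⟩ | ⟨a, M, T, hM0, hM, hT, ht', -⟩
      · rw [dm_zero_iff.2 h]
        exact ⟨Nat.zero_le _, fun h => absurd rfl h⟩
      · have h2 : dm s t = dm s t' := by rw [h]; exact dm_sq hb
        obtain ⟨h3, h4⟩ := IHt t' (by omega)
        rw [h2]
        refine ⟨h3, fun h5 => ?_⟩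
        rw [h]
        exact (h4 h5).imp Clus.double Spread.double
      · set N := 2 ^ (a + (L + L1)) * T with hN
        have hN0 : 0 < N := by positivity
        have hbij := hL1 a N M hM hN0 (by
          rw [hN]
          exact Dvd.dvd.mul_right (pow_dvd_pow 2 (by omega)) _)
        have hsum : dm s t = ∑ i : Fin (s + 1), dm i N * dm (s - i) M := by
          rw [ht']
          exact dm_kunneth hbij
        have hterm : ∀ i : Fin (s + 1), dm i N * dm (s - i) M ≠ 0 →
            1 ≤ (i : ℕ) ∧ 1 ≤ s - (i : ℕ) ∧ dm i N ≠ 0 ∧ dm (s - i) M ≠ 0 := by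
          intro i hi
          have h2 := left_ne_zero_of_mul hi
          have h3 := right_ne_zero_of_mul hi
          refine ⟨?_, ?_, h2, h3⟩
          · by_contra hcon
            have h0 : (i : ℕ) = 0 := by omega
            rw [h0, dm_zero_left hN0] at h2
            exact h2 rfl
          · by_contra hcon
            have h0 : s - (i : ℕ) = 0 := by omega
            rw [h0, dm_zero_left hM0] at h3
            exact h3 rfl
        refine ⟨?_, fun hne => ?_⟩
        · rw [hsum]
          have h2 : ∑ i : Fin (s + 1), dm i N * dm (s - i) M ≤ ∑ i : Fin (s + 1), C' * C' := by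
            refine Finset.sum_le_sum fun i _ => ?_
            by_cases h0 : dm i N * dm (s - i) M = 0
            · rw [h0]
              exact Nat.zero_le _
            · obtain ⟨h3, h4, -, -⟩ := hterm i h0
              exact Nat.mul_le_mul (hUC i (by omega) h3 N).1 (hUC (s - i) (by omega) h4 M).1
          rw [Finset.sum_const, Finset.card_univ, Fintype.card_fin, smul_eq_mul] at h2
          exact h2.trans (Nat.le_add_left _ _)
        · rw [hsum] at hne
          obtain ⟨i, -, hi⟩ := Finset.exists_ne_zero_of_sum_ne_zero hne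
          obtain ⟨h3, h4, h5, h6⟩ := hterm i hi
          have hd : 2 ^ (a + L) ∣ N := by
            rw [hN]
            exact Dvd.dvd.mul_right (pow_dvd_pow 2 (by omega)) _
          rw [ht']
          rcases (hUC i (by omega) h3 N).2 h5 with h7 | h7
          · left
            have h8 : Clus (B + U' + 1) (s - i) M := by
              rcases (hUC (s - i) (by omega) h4 M).2 h6 with h9 | h9
              · exact h9.mono (by omega) (by omega)
              · exact h9.clus.mono (by omega) le_rfl
            have h9 := (h7.mono (U' := B + U' + 1) (by omega) le_rfl).add h8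
            exact h9.mono le_rfl (by omega)
          · rcases (hUC (s - i) (by omega) h4 M).2 h6 with h9 | h9
            · left
              have h10 := (h7.clus.mono (U' := B + U' + 1) (by omega) le_rfl).add
                (h9.mono (U' := B + U' + 1) (by omega) le_rfl)
              exact h10.mono le_rfl (by omega)
            · right
              have h10 := h7.concat h9 hM hd
              rw [show (i : ℕ) + (s - i) = s by omega] at h10
              exact h10

end Pool.Agent.Work.MP_701abf_gt.Cob
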