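import Pool.Agent.Work.MP_701abf_gt.Cob.Clus

/-!
Counting the degrees which are sums of few clusters, and the spread degrees.
-/

open MvPolynomial Module
open Pool.Agent.Work.MP_701abf_gt.Stab

namespace Pool.Agent.Work.MP_701abf_gt.Cob

/-- There are few sums of `k` clusters. -/
lemma clus_count (U k n : ℕ) : ∃ F : Finset ℕ, F.card ≤ ((n + 1) * (U + 1)) ^ k ∧
    ∀ t < 2 ^ n, Clus U k t → t ∈ F := by
  induction k with
  | zero =>
    refine ⟨{0}, by rw [pow_zero, Finset.card_singleton], fun t _ h => ?_⟩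
    cases h
    exact Finset.mem_singleton_self 0
  | succ k ih =>
    obtain ⟨F, hF, hF'⟩ := ih
    refine ⟨((Finset.range (n + 1) ×ˢ Finset.range (U + 1)) ×ˢ F).image
      (fun p => 2 ^ p.1.1 * p.1.2 + p.2), ?_, fun t ht h => ?_⟩
    · refine Finset.card_image_le.trans ?_
      rw [Finset.card_product, Finset.card_product, Finset.card_range, Finset.card_range,
        pow_succ, mul_comm]
      exact Nat.mul_le_mul_right _ hF
    · cases h with
      | @succ k t' a u hu h =>
        have ht' : t' < 2 ^ n := lt_of_le_of_lt (Nat.le_add_left _ _) ht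
        rw [Finset.mem_image]
        rcases Nat.eq_zero_or_pos u with h0 | h0
        · refine ⟨((0, 0), t'), ?_, by rw [h0]; ring⟩
          simp only [Finset.mem_product, Finset.mem_range]
          exact ⟨⟨by omega, by omega⟩, hF' t' ht' h⟩
        · refine ⟨((a, u), t'), ?_, rfl⟩
          have ha : a < n := by
            refine (Nat.pow_lt_pow_iff_right (a := 2) (by norm_num)).1 ?_
            calc 2 ^ a ≤ 2 ^ a * u := Nat.le_mul_of_pos_right _ h0
              _ ≤ 2 ^ a * u + t' := Nat.le_add_right _ _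
              _ < 2 ^ n := ht
          simp only [Finset.mem_product, Finset.mem_range]
          exact ⟨⟨by omega, by omega⟩, hF' t' ht' h⟩

lemma Spread.scale {L s t : ℕ} (h : Spread L s t) (k : ℕ) : Spread L s (2 ^ k * t) := by
  induction k with
  | zero => rw [pow_zero, one_mul]; exact h
  | succ k ih =>
    have := ih.double
    rw [← mul_assoc, ← pow_succ'] at this
    exact this

/-- There are many spread degrees. -/
lemma spread_count (L s m : ℕ) : ∃ F : Finset ℕ, m ^ (s + 1) ≤ F.card ∧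
    ∀ t ∈ F, t < 2 ^ ((s + 1) * (m + L + 1)) ∧ Spread L (s + 1) t := by
  induction s with
  | zero =>
    refine ⟨(Finset.range m).image (fun b => 2 ^ b), ?_, fun t ht => ?_⟩
    · rw [Finset.card_image_of_injective _ (Nat.pow_right_injective le_rfl), Finset.card_range]
      simp
    · obtain ⟨b, hb, rfl⟩ := Finset.mem_image.1 ht
      rw [Finset.mem_range] at hb
      exact ⟨Nat.pow_lt_pow_right (by norm_num) (by omega), Spread.one b⟩
  | succ s ih =>
    obtain ⟨F, hF, hF'⟩ := ih
    have hlt : ∀ b < m, 2 ^ b < 2 ^ (m + L + 1) := fun b hb =>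
      Nat.pow_lt_pow_right (by norm_num) (by omega)
    refine ⟨(Finset.range m ×ˢ F).image (fun p => 2 ^ (m + L + 1) * p.2 + 2 ^ p.1), ?_,
      fun t ht => ?_⟩
    · rw [Finset.card_image_of_injOn, Finset.card_product, Finset.card_range, pow_succ, mul_comm]
      · exact Nat.mul_le_mul_left _ hF
      · rintro ⟨b, t⟩ h1 ⟨b', t'⟩ h2 heq
        rw [Finset.mem_coe, Finset.mem_product, Finset.mem_range] at h1 h2
        simp only at h1 h2 heq
        have h3 := hlt b h1.1
        have h4 := hlt b' h2.1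
        have h5 := congrArg (fun x => x % 2 ^ (m + L + 1)) heq
        have h6 := congrArg (fun x => x / 2 ^ (m + L + 1)) heq
        simp only [Nat.mul_add_mod, Nat.mod_eq_of_lt h3, Nat.mod_eq_of_lt h4] at h5
        simp only [Nat.mul_add_div (show 0 < 2 ^ (m + L + 1) by positivity),
          Nat.div_eq_of_lt h3, Nat.div_eq_of_lt h4, add_zero] at h6
        rw [Nat.pow_right_injective le_rfl h5, h6]
    · obtain ⟨⟨b, t'⟩, hb, rfl⟩ := Finset.mem_image.1 ht
      rw [Finset.mem_product, Finset.mem_range] at hb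
      simp only at hb ⊢
      obtain ⟨h1, h2⟩ := hF' t' hb.2
      refine ⟨?_, Spread.succ b (h2.scale _) (Dvd.dvd.mul_right (pow_dvd_pow 2 (by omega)) _)⟩
      calc 2 ^ (m + L + 1) * t' + 2 ^ b < 2 ^ (m + L + 1) * t' + 2 ^ (m + L + 1) :=
            Nat.add_lt_add_left (hlt b hb.1) _
        _ = 2 ^ (m + L + 1) * (t' + 1) := by ring
        _ ≤ 2 ^ (m + L + 1) * 2 ^ ((s + 1) * (m + L + 1)) := Nat.mul_le_mul_left _ h1
        _ = 2 ^ ((s + 1 + 1) * (m + L + 1)) := by rw [← pow_add]; congr 1; ring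

/-- The number of spread degrees below `2 ^ n` grows like `n ^ s`. -/
lemma spread_lower (L s : ℕ) (hs : 1 ≤ s) : ∀ n, s * (2 * L + 3) ≤ n → ∃ F : Finset ℕ,
    n ^ s ≤ (2 * s) ^ s * F.card ∧ ∀ t ∈ F, t < 2 ^ n ∧ Spread L s t := by
  intro n hn
  obtain ⟨s, rfl⟩ : ∃ k, s = k + 1 := ⟨s - 1, by omega⟩
  set q := n / (s + 1) with hq
  have hq1 : 2 * L + 3 ≤ q := by
    rw [hq, Nat.le_div_iff_mul_le (by omega), mul_comm]
    exact hn
  have hq2 : n < (s + 1) * (q + 1) := by
    have := Nat.lt_mul_div_succ n (show 0 < s + 1 by omega)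
    exact this
  have hq3 : (s + 1) * q ≤ n := Nat.mul_div_le n (s + 1)
  obtain ⟨m, hm⟩ : ∃ m, q = m + L + 1 := ⟨q - (L + 1), by omega⟩
  obtain ⟨F, hF, hF'⟩ := spread_count L s m
  refine ⟨F, ?_, fun t ht => ⟨lt_of_lt_of_le (hF' t ht).1
    (Nat.pow_le_pow_right (by norm_num) (by rw [← hm]; exact hq3)), (hF' t ht).2⟩⟩
  calc n ^ (s + 1) ≤ ((2 * (s + 1)) * m) ^ (s + 1) := by
        refine Nat.pow_le_pow_left ?_ _
        refine hq2.le.trans ?_
        calc (s + 1) * (q + 1) ≤ (s + 1) * (2 * m) := Nat.mul_le_mul_left _ (by omega)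
          _ = 2 * (s + 1) * m := by ring
    _ = (2 * (s + 1)) ^ (s + 1) * m ^ (s + 1) := mul_pow _ _ _
    _ ≤ _ := Nat.mul_le_mul_left _ hF

end Pool.Agent.Work.MP_701abf_gt.Cob
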