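import Mathlib

/-!
The cohomology of the mod 2 Steenrod algebra, computed by the cobar complex of the dual Steenrod
algebra `F_2[ξ_1, ξ_2, …]`, with the operation `Sq^0` induced by squaring.
-/

open MvPolynomial

namespace Pool.Agent.Work.MP_701abf_gt.Cob

noncomputable section

/-- Cobar cochains of degree `s`: the `s`-fold tensor power of the dual Steenrod algebra.  The
variable `(i, n)` is the generator `ξ_{n+1}` of the tensor factor number `i`. -/
abbrev Cobar (s : ℕ) : Type := MvPolynomial (Fin s × ℕ) (ZMod 2)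

/-- `ξ_n` in the tensor factor number `i`, with `ξ_0 = 1`. -/
def xi {s : ℕ} (i : Fin s) : ℕ → Cobar s
  | 0 => 1
  | n + 1 => X (i, n)

/-- The coface maps `Cobar s → Cobar (s + 1)`, `0 ≤ j ≤ s + 1`: the first inserts `1` in front,
the last inserts `1` at the end, and the `j`-th one, `1 ≤ j ≤ s`, applies Milnor's coproduct
`ξ_n ↦ ∑_{a + b = n} ξ_a ^ (2 ^ b) ⊗ ξ_b` to the `j`-th tensor factor. -/
def coface (s j : ℕ) : Cobar s →ₐ[ZMod 2] Cobar (s + 1) :=
  aeval fun v =>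
    if (v.1 : ℕ) + 1 < j then X (v.1.castSucc, v.2)
    else if (v.1 : ℕ) + 1 = j then
      ∑ p ∈ Finset.HasAntidiagonal.antidiagonal (v.2 + 1),
        xi v.1.castSucc p.1 ^ 2 ^ p.2 * xi v.1.succ p.2
    else X (v.1.succ, v.2)

/-- The cobar differential. -/
def cobarD (s : ℕ) : Cobar s →ₗ[ZMod 2] Cobar (s + 1) :=
  ∑ j ∈ Finset.range (s + 2), (coface s j).toLinearMap

/-- Cochains of internal degree `t`, where `ξ_n` has degree `2 ^ n - 1`. -/
def Hom (s t : ℕ) : Submodule (ZMod 2) (Cobar s) :=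
  weightedHomogeneousSubmodule (ZMod 2) (fun v : Fin s × ℕ => 2 ^ (v.2 + 1) - 1) t

/-- Cocycles of degree `(s, t)`. -/
def Zc (s t : ℕ) : Submodule (ZMod 2) (Cobar s) := Hom s t ⊓ LinearMap.ker (cobarD s)

/-- Coboundaries of degree `(s, t)`. -/
def Bc : (s t : ℕ) → Submodule (ZMod 2) (Cobar s)
  | 0, _ => ⊥
  | s + 1, t => (Hom s t).map (cobarD s)

/-- `Ext^{s,t}(F_2, F_2)` over the Steenrod algebra: cocycles modulo coboundaries. -/
abbrev Ext (s t : ℕ) : Type := Zc s t ⧸ (Bc s t).comap (Zc s t).subtype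

/-- The class of a cocycle. -/
def cls {s t : ℕ} (x : Zc s t) : Ext s t := Submodule.Quotient.mk x

/-- Squaring of cochains. -/
def sqMap (s : ℕ) : Cobar s →ₗ[ZMod 2] Cobar s where
  toFun p := p ^ 2
  map_add' p q := by
    have : (2 : Cobar s) = 0 := by
      have h : (C (2 : ZMod 2) : Cobar s) = 2 := map_ofNat _ 2
      rw [← h, show (2 : ZMod 2) = 0 from rfl, map_zero]
    rw [add_sq, this, zero_mul, zero_mul, add_zero]
  map_smul' c p := by
    rw [RingHom.id_apply, smul_pow]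
    congr 1
    revert c
    decide

lemma sqMap_apply (s : ℕ) (p : Cobar s) : sqMap s p = p ^ 2 := rfl

lemma cobarD_apply (s : ℕ) (p : Cobar s) :
    cobarD s p = ∑ j ∈ Finset.range (s + 2), coface s j p := by
  unfold cobarD
  rw [LinearMap.sum_apply]
  rfl

lemma cobarD_sq (s : ℕ) (p : Cobar s) : cobarD s (sqMap s p) = sqMap (s + 1) (cobarD s p) := by
  rw [cobarD_apply, cobarD_apply, map_sum]
  exact Finset.sum_congr rfl fun j _ => map_pow _ _ _

lemma sqMap_Hom {s t : ℕ} {p : Cobar s} (h : p ∈ Hom s t) : sqMap s p ∈ Hom s (2 * t) := by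
  have := IsWeightedHomogeneous.pow h 2
  rwa [smul_eq_mul] at this

lemma sqMap_Zc {s t : ℕ} {p : Cobar s} (h : p ∈ Zc s t) : sqMap s p ∈ Zc s (2 * t) := by
  refine ⟨sqMap_Hom h.1, ?_⟩
  have h2 : cobarD s p = 0 := h.2
  change cobarD s (sqMap s p) = 0
  rw [cobarD_sq, h2, map_zero]

lemma sqMap_Bc {s t : ℕ} {p : Cobar s} (h : p ∈ Bc s t) : sqMap s p ∈ Bc s (2 * t) := by
  cases s with
  | zero =>
    have h2 : p = 0 := h
    rw [h2, map_zero]
    exact Submodule.zero_mem _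
  | succ s =>
    obtain ⟨q, hq, rfl⟩ := h
    exact ⟨sqMap s q, sqMap_Hom hq, cobarD_sq s q⟩

/-- The operation `Sq^0 : Ext^{s,t} → Ext^{s,2t}`, `[p] ↦ [p ^ 2]`. -/
def Sq0 (s t : ℕ) : Ext s t →ₗ[ZMod 2] Ext s (2 * t) :=
  Submodule.mapQ _ _ ((sqMap s).restrict fun _ h => sqMap_Zc h) fun _ h => sqMap_Bc h

end

end Pool.Agent.Work.MP_701abf_gt.Cob
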