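import Pool.Agent.Work.MP_701abf_gt.Cob.Defs

/-!
The dimension of a space of cochains modulo a subspace.
-/

namespace Pool.Agent.Work.MP_701abf_gt.Cob

noncomputable section

/-- The dimension of the image of `A` in the quotient of the space of cochains by `B`, that is
of `A / (A ∩ B)`.  For example `dimMod (Zc s t) (Bc s t)` is the dimension of `Ext^{s,t}`. -/
def dimMod {s : ℕ} (A B : Submodule (ZMod 2) (Cobar s)) : ℕ :=
  Module.finrank (ZMod 2) (A.map B.mkQ)

end

end Pool.Agent.Work.MP_701abf_gt.Cob
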