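import Pool.Agent.Work.MP_701abf_gt.Cob.Count
import Pool.Agent.Work.MP_701abf_gt.Cob.DimDefs

/-!
For almost all classes `x` on the `s`-line, `h_0 Sq^1 x_j ≠ 0` for all large `j`.
-/

open MvPolynomial Module
open Pool.Agent.Work.MP_701abf_gt.Stab

namespace Pool.Agent.Work.MP_701abf_gt.Cob

lemma hom_zero {s : ℕ} {p : Cobar s} (h : p ∈ Hom s 0) : p = C (coeff 0 p) := by
  classical
  ext d
  rw [coeff_C]
  by_cases hd : 0 = d
  · rw [if_pos hd, hd]
  · rw [if_neg hd]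
    by_contra hne
    have h1 : Finsupp.weight (wN s) d = 0 := h hne
    apply hd
    ext v
    have h2 := Finsupp.le_weight (wN s) (wN_pos v) d
    rw [h1] at h2
    exact (Nat.le_zero.1 h2).symm

lemma cobarD_C (s : ℕ) (c : ZMod 2) : cobarD s (C c) = ((s + 2 : ℕ) : Cobar (s + 1)) * C c := by
  rw [cobarD_apply]
  have : ∀ j ∈ Finset.range (s + 2), coface s j (C c) = C c := fun j _ => by
    rw [← MvPolynomial.algebraMap_eq, AlgHom.commutes, MvPolynomial.algebraMap_eq]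
  rw [Finset.sum_congr rfl this, Finset.sum_const, Finset.card_range, nsmul_eq_mul]

lemma Zc_zero {s : ℕ} (hs : 1 ≤ s) : Zc s 0 ≤ Bc s 0 := by
  intro p hp
  have h1 := hom_zero hp.1
  have h2 : cobarD s p = 0 := hp.2
  obtain ⟨s, rfl⟩ : ∃ k, s = k + 1 := ⟨s - 1, by omega⟩
  have h3 : ((2 : ℕ) : ZMod 2) = 0 := rfl
  rcases Nat.even_or_odd s with ⟨k, hk⟩ | ⟨k, hk⟩
  · -- `s + 1` is odd
    rw [h1, cobarD_C] at h2
    have h4 : ((s + 1 + 2 : ℕ) : Cobar (s + 1 + 1)) = 1 := by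
      have h5 : ((s + 1 + 2 : ℕ) : ZMod 2) = 1 := by
        rw [show s + 1 + 2 = 2 * (k + 1) + 1 by omega]
        push_cast
        push_cast at h3
        rw [h3, zero_mul, zero_add]
      have h6 := congrArg (C : ZMod 2 →+* Cobar (s + 1 + 1)) h5
      rw [map_natCast, map_one] at h6
      exact h6
    rw [h4, one_mul] at h2
    have h7 : coeff 0 p = 0 := by
      have h8 := congrArg (coeff 0) h2
      rw [coeff_zero_C, coeff_zero] at h8
      exact h8
    rw [h1, h7, map_zero]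
    exact Submodule.zero_mem _
  · refine ⟨C (coeff 0 p), isWeightedHomogeneous_C _ _, ?_⟩
    rw [cobarD_C]
    have h5 : ((s + 2 : ℕ) : ZMod 2) = 1 := by
      rw [show s + 2 = 2 * (k + 1) + 1 by omega]
      push_cast
      push_cast at h3
      rw [h3, zero_mul, zero_add]
    have h6 := congrArg (C : ZMod 2 →+* Cobar (s + 1)) h5
    rw [map_natCast, map_one] at h6
    rw [h6, one_mul]
    exact h1.symm

theorem density (s : ℕ) (hs : 1 ≤ s) : ∃ (J C D : ℕ) (K : ∀ t, Submodule (ZMod 2) (Ext s t)),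
    (∀ (t : ℕ) (p : Zc s t), cls p ∈ K t → ∀ j, J ≤ j →
      sqOne s ((p : Cobar s) ^ 2 ^ j) ∈ Bc (s + 1) (2 * (2 ^ j * t))) ∧
    (∀ (t : ℕ) (p : Zc s t), cls p ∉ K t → ∀ j, J ≤ j →
      jux (s + 1) 1 (sqOne s ((p : Cobar s) ^ 2 ^ j)) (xi 0 1) ∉
        Bc (s + 1 + 1) (2 * (2 ^ j * t) + 1)) ∧
    (∀ n, 1 ≤ n → ∑ t ∈ Finset.range (2 ^ n), finrank (ZMod 2) (K t) ≤ C * n ^ (s - 1)) ∧
    ∀ n, D ≤ n → n ^ s ≤ D * ∑ t ∈ Finset.range (2 ^ n), finrank (ZMod 2) (Ext s t) := by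
  classical
  obtain ⟨L, hL⟩ := exists_goodL (s + 1)
  obtain ⟨J, hJ⟩ := h0_sqOne s
  obtain ⟨U, C, hUC⟩ := bd s hs L
  have hmem : ∀ (t : ℕ) (p : Zc s t),
      cls p ∈ LinearMap.ker ((Sq1 s (2 ^ J * t)).comp (Fr s t J)) ↔
        sqOne s ((p : Cobar s) ^ 2 ^ J) ∈ Bc (s + 1) (2 * (2 ^ J * t)) := by
    intro t p
    rw [LinearMap.mem_ker, LinearMap.comp_apply, Fr_cls, Sq1_cls, cls_zero]
  refine ⟨J, C * (2 * (U + 1)) ^ (s - 1), max (s * (2 * L + 3)) ((2 * s) ^ s),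
    fun t => LinearMap.ker ((Sq1 s (2 ^ J * t)).comp (Fr s t J)),
    fun t p hp j hj => ?_, fun t p hp j hj => ?_, fun n hn => ?_, fun n hn => ?_⟩
  · have h1 := (hmem t p).1 hp
    obtain ⟨i, rfl⟩ := Nat.exists_eq_add_of_le hj
    have h2 := fr_Bc (j := i) h1
    rw [← sqOne_pow, ← pow_mul, ← pow_add] at h2
    have e : 2 ^ i * (2 * (2 ^ J * t)) = 2 * (2 ^ (J + i) * t) := by rw [pow_add]; ring
    rw [e] at h2
    exact h2
  · rw [hmem t p] at hp
    have ht : 0 < t := by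
      rcases Nat.eq_zero_or_pos t with h0 | h0
      · subst h0
        exfalso
        apply hp
        have h1 := sqOne_Bc (fr_Bc (j := J) (Zc_zero hs p.2))
        exact h1
      · exact h0
    obtain ⟨i, rfl⟩ := Nat.exists_eq_add_of_le hj
    have h1 := hJ (2 ^ J * t) (by positivity) (dvd_mul_right _ _) _ (fr_Zc p.2) hp i
    have e : 2 ^ i * (2 ^ J * t) = 2 ^ (J + i) * t := by rw [pow_add]; ring
    rw [← pow_mul, ← pow_add, e] at h1
    exact h1
  · obtain ⟨F, hF, hF'⟩ := clus_count U (s - 1) n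
    have h1 : ∀ t ∈ Finset.range (2 ^ n), finrank (ZMod 2)
        (LinearMap.ker ((Sq1 s (2 ^ J * t)).comp (Fr s t J))) ≤ if t ∈ F then C else 0 := by
      intro t ht
      rw [Finset.mem_range] at ht
      have h2 : finrank (ZMod 2) (Ext s t) = dm s t := rfl
      have h5 : finrank (ZMod 2) (LinearMap.ker ((Sq1 s (2 ^ J * t)).comp (Fr s t J))) ≤ dm s t :=
        h2 ▸ Submodule.finrank_le _
      by_cases h : Spread L s t
      · obtain ⟨-, -, -, -, h4⟩ := h.main hL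
        have h3 : LinearMap.ker ((Sq1 s (2 ^ J * t)).comp (Fr s t J)) = ⊥ := by
          rw [Submodule.eq_bot_iff]
          intro x hx
          obtain ⟨p, rfl⟩ := cls_surj x
          rw [hmem] at hx
          by_contra hne
          exact (h4 p p.2 (fun h6 => hne ((cls_zero p).2 h6)) J).2 hx
        rw [h3, finrank_bot]
        exact Nat.zero_le _
      · by_cases h3 : dm s t = 0
        · rw [h3] at h5
          exact h5.trans (Nat.zero_le _)
        · rcases (hUC t).2 h3 with h4 | h4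
          · rw [if_pos (hF' t ht h4)]
            exact h5.trans (hUC t).1
          · exact absurd h4 h
    calc ∑ t ∈ Finset.range (2 ^ n), finrank (ZMod 2)
          (LinearMap.ker ((Sq1 s (2 ^ J * t)).comp (Fr s t J)))
        ≤ ∑ t ∈ Finset.range (2 ^ n), if t ∈ F then C else 0 := Finset.sum_le_sum h1
      _ = (Finset.filter (· ∈ F) (Finset.range (2 ^ n))).card * C := by
          rw [← Finset.sum_filter, Finset.sum_const, smul_eq_mul]
      _ ≤ F.card * C := Nat.mul_le_mul_right _ (Finset.card_le_card fun t ht =>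
          (Finset.mem_filter.1 ht).2)
      _ ≤ ((n + 1) * (U + 1)) ^ (s - 1) * C := Nat.mul_le_mul_right _ hF
      _ ≤ ((2 * (U + 1)) * n) ^ (s - 1) * C := by
          refine Nat.mul_le_mul_right _ (Nat.pow_le_pow_left ?_ _)
          calc (n + 1) * (U + 1) ≤ (2 * n) * (U + 1) := Nat.mul_le_mul_right _ (by omega)
            _ = 2 * (U + 1) * n := by ring
      _ = C * (2 * (U + 1)) ^ (s - 1) * n ^ (s - 1) := by rw [mul_pow]; ring
  · obtain ⟨F, hF, hF'⟩ := spread_lower L s hs n ((le_max_left _ _).trans hn)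
    have h1 : F.card ≤ ∑ t ∈ Finset.range (2 ^ n), finrank (ZMod 2) (Ext s t) := by
      have h2 : F ⊆ Finset.range (2 ^ n) := fun t ht => Finset.mem_range.2 (hF' t ht).1
      refine le_trans ?_ (Finset.sum_le_sum_of_subset h2)
      rw [Finset.card_eq_sum_ones]
      refine Finset.sum_le_sum fun t ht => ?_
      obtain ⟨-, -, -, h3, -⟩ := (hF' t ht).2.main hL
      exact h3.symm.le
    exact hF.trans ((Nat.mul_le_mul_left _ h1).trans
      (Nat.mul_le_mul_right _ (le_max_right _ _)))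

/-- The map from `Ext^{s,t}` to cochains modulo coboundaries. -/
noncomputable def iotaE (s t : ℕ) : Ext s t →ₗ[ZMod 2] Cobar s ⧸ Bc s t :=
  Submodule.mapQ _ _ (Zc s t).subtype le_rfl

lemma iotaE_cls {s t : ℕ} (z : Zc s t) : iotaE s t (cls z) = (Bc s t).mkQ (z : Cobar s) := rfl

lemma iotaE_inj (s t : ℕ) : Function.Injective (iotaE s t) := by
  rw [← LinearMap.ker_eq_bot, Submodule.eq_bot_iff]
  intro x hx
  obtain ⟨z, rfl⟩ := cls_surj x
  rw [LinearMap.mem_ker, iotaE_cls, Submodule.mkQ_apply, Submodule.Quotient.mk_eq_zero] at hx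
  exact (cls_zero z).2 hx

lemma dimMod_Ext (s t : ℕ) : dimMod (Zc s t) (Bc s t) = finrank (ZMod 2) (Ext s t) := by
  have h : (Zc s t).map (Bc s t).mkQ = LinearMap.range (iotaE s t) := by
    ext y
    rw [Submodule.mem_map, LinearMap.mem_range]
    constructor
    · rintro ⟨z, hz, rfl⟩
      exact ⟨cls ⟨z, hz⟩, rfl⟩
    · rintro ⟨x, rfl⟩
      obtain ⟨z, rfl⟩ := cls_surj x
      exact ⟨z, z.2, rfl⟩
  unfold dimMod
  rw [h]
  exact LinearMap.finrank_range_of_inj (iotaE_inj s t)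

lemma dimMod_le {s t : ℕ} {A : Submodule (ZMod 2) (Cobar s)} {K : Submodule (ZMod 2) (Ext s t)}
    (hA : ∀ p ∈ A, ∃ z : Zc s t, (z : Cobar s) = p ∧ cls z ∈ K) :
    dimMod A (Bc s t) ≤ finrank (ZMod 2) K := by
  have h : A.map (Bc s t).mkQ ≤ K.map (iotaE s t) := by
    rintro y ⟨p, hp, rfl⟩
    obtain ⟨z, rfl, hz⟩ := hA p hp
    exact ⟨cls z, hz, rfl⟩
  unfold dimMod
  exact (Submodule.finrank_mono h).trans (Submodule.finrank_map_le _ _)

/-- The density theorem in terms of cocycles. -/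
theorem density' (s : ℕ) (hs : 1 ≤ s) :
    ∃ (J C D : ℕ) (K : ℕ → Submodule (ZMod 2) (Cobar s)),
      (∀ t, K t ≤ Zc s t) ∧
      (∀ t, ∀ p ∈ K t, ∀ j, J ≤ j →
        sqOne s (p ^ 2 ^ j) ∈ Bc (s + 1) (2 * (2 ^ j * t))) ∧
      (∀ t, ∀ p ∈ Zc s t, p ∉ K t → ∀ j, J ≤ j →
        jux (s + 1) 1 (sqOne s (p ^ 2 ^ j)) (xi 0 1) ∉ Bc (s + 1 + 1) (2 * (2 ^ j * t) + 1)) ∧
      (∀ n, 1 ≤ n →
        ∑ t ∈ Finset.range (2 ^ n), dimMod (K t) (Bc s t) ≤ C * n ^ (s - 1)) ∧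
      ∀ n, D ≤ n →
        n ^ s ≤ D * ∑ t ∈ Finset.range (2 ^ n), dimMod (Zc s t) (Bc s t) := by
  obtain ⟨J, C, D, K, h1, h2, h3, h4⟩ := density s hs
  have hmem : ∀ t p, p ∈ ((K t).comap (clsL s t)).map (Zc s t).subtype ↔
      ∃ z : Zc s t, (z : Cobar s) = p ∧ cls z ∈ K t := by
    intro t p
    constructor
    · rintro ⟨z, hz, rfl⟩
      exact ⟨z, rfl, hz⟩
    · rintro ⟨z, rfl, hz⟩
      exact ⟨z, hz, rfl⟩
  refine ⟨J, C, D, fun t => ((K t).comap (clsL s t)).map (Zc s t).subtype,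
    fun t p hp => ?_, fun t p hp => ?_, fun t p hp hp' => ?_, fun n hn => ?_, fun n hn => ?_⟩
  · obtain ⟨z, rfl, -⟩ := (hmem t p).1 hp
    exact z.2
  · obtain ⟨z, rfl, hz⟩ := (hmem t p).1 hp
    exact h1 t z hz
  · exact h2 t ⟨p, hp⟩ fun h => hp' ((hmem t p).2 ⟨⟨p, hp⟩, rfl, h⟩)
  · exact (Finset.sum_le_sum fun t _ => dimMod_le fun p hp => (hmem t p).1 hp).trans (h3 n hn)
  · have e : ∑ t ∈ Finset.range (2 ^ n), dimMod (Zc s t) (Bc s t) =
        ∑ t ∈ Finset.range (2 ^ n), finrank (ZMod 2) (Ext s t) :=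
      Finset.sum_congr rfl fun t _ => dimMod_Ext s t
    rw [e]
    exact h4 n hn

end Pool.Agent.Work.MP_701abf_gt.Cob
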