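import Pool.Agent.Work.MP_701abf_gt.Cob.Kun

/-!
The structure of the lines of the cohomology of the Steenrod algebra.
-/

open MvPolynomial
open Pool.Agent.Work.MP_701abf_gt.Stab

namespace Pool.Agent.Work.MP_701abf_gt.Cob

/-- The structure of the line `s`. -/
theorem line_structure (s L : ℕ) : ∃ B : ℕ, ∀ t : ℕ, B < t →
    Zc s t ≤ Bc s t ∨ (∃ t', t = 2 * t' ∧ Function.Bijective (Sq0 s t')) ∨
      ∃ a M T : ℕ, 0 < M ∧ M < 2 ^ a ∧ 0 < T ∧ t = 2 ^ (a + L) * T + M ∧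
        Kunneth s (2 ^ (a + L) * T) M := by
  obtain ⟨L0, hL0⟩ := kunneth s
  obtain ⟨B, hB⟩ := gap_thm s 0 Empty (L + L0)
  obtain ⟨J, hJ⟩ := Sq0_bijective s
  refine ⟨2 ^ (J + 1) * B, fun t ht => ?_⟩
  by_cases hg : Gap (L + L0) t
  · right; right
    obtain ⟨a, t1, t2, h1, h2, h3, h4⟩ := hg
    obtain ⟨M, rfl⟩ := Int.eq_ofNat_of_zero_le h1.le
    obtain ⟨T, rfl⟩ := Int.eq_ofNat_of_zero_le h3.le
    have e1 : M + 2 ^ (a + (L + L0)) * T = t := by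
      have : ((t : ℕ) : ℤ) = ((M + 2 ^ (a + (L + L0)) * T : ℕ) : ℤ) := by
        rw [h4]; push_cast; ring
      exact_mod_cast this.symm
    have e2 : 2 ^ (a + (L + L0)) * T = 2 ^ (a + L) * (2 ^ L0 * T) := by
      rw [← mul_assoc, ← pow_add, add_assoc]
    have hM : M < 2 ^ a := by exact_mod_cast h2
    have hT : 0 < T := by exact_mod_cast h3
    refine ⟨a, M, 2 ^ L0 * T, by exact_mod_cast h1, hM, by positivity,
      by rw [← e2, ← e1, add_comm], ?_⟩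
    exact hL0 a _ M hM (by positivity) (by
      rw [← e2]
      exact Dvd.dvd.mul_right (pow_dvd_pow 2 (by omega)) _)
  by_cases hs : Small B t
  · right; left
    rcases hs with h | ⟨v, t0, h1, h2, h3⟩
    · exfalso
      have : 0 < t := by omega
      omega
    · obtain ⟨T, rfl⟩ := Int.eq_ofNat_of_zero_le h1.le
      have e : t = 2 ^ v * T := by exact_mod_cast h3
      have hT : T ≤ B := by exact_mod_cast h2
      have hv : J + 1 ≤ v := by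
        by_contra hcon
        have h5 : 2 ^ v ≤ 2 ^ (J + 1) := Nat.pow_le_pow_right (by norm_num) (by omega)
        have h6 : 2 ^ v * T ≤ 2 ^ (J + 1) * B := Nat.mul_le_mul h5 hT
        omega
      obtain ⟨u, rfl⟩ : ∃ u, v = u + 1 := ⟨v - 1, by omega⟩
      refine ⟨2 ^ u * T, by rw [e, pow_succ]; ring, hJ _ ?_⟩
      exact Dvd.dvd.mul_right (pow_dvd_pow 2 (by omega)) _
  · left
    intro p hp
    obtain ⟨h1, h2, h3⟩ := th_Zc hp
    obtain ⟨G, hG, e⟩ := hB t hg hs (th s p) ⟨h1, h2⟩ h3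
    exact mem_Bc.2 ⟨G, hG.1, hG.2, e⟩

/-- Vanishing below highly divisible degrees. -/
theorem ext_vanish (s e : ℕ) (he : 1 ≤ e) : ∃ J : ℕ, ∀ t : ℕ, 2 ^ J ∣ t + e →
    Zc s t ≤ Bc s t := by
  obtain ⟨J, hJ⟩ := vanishing s 0 e (by exact_mod_cast he) Empty
  refine ⟨J, fun t ht p hp => ?_⟩
  obtain ⟨h1, h2, h3⟩ := th_Zc hp
  have hd : (2 : ℤ) ^ J ∣ ((t + e : ℕ) : ℤ) := by exact_mod_cast ht
  have h4 : ExT Empty (fun _ => 0) s ((0 : ℕ) : ℤ)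
      (((t + e : ℕ) : ℤ) + ((0 : ℕ) : ℤ) - (e : ℤ)) := hJ _ hd
  have e1 : ((t + e : ℕ) : ℤ) + ((0 : ℕ) : ℤ) - (e : ℤ) = (t : ℤ) := by push_cast; ring
  rw [e1] at h4
  obtain ⟨G, hG, e⟩ := h4 (th s p) ⟨h1, h2⟩ h3
  exact mem_Bc.2 ⟨G, hG.1, hG.2, e⟩

end Pool.Agent.Work.MP_701abf_gt.Cob
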