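import Pool.Agent.Work.MP_701abf_gt.Cob.Kun
import Pool.Agent.Work.MP_701abf_gt.Cob.Line

/-!
Dimensions of the groups `Ext^{s,t}`.
-/

open MvPolynomial Module
open Pool.Agent.Work.MP_701abf_gt.Stab
open scoped TensorProduct

namespace Pool.Agent.Work.MP_701abf_gt.Cob

/-- The weights. -/
abbrev wN (s : ℕ) : Fin s × ℕ → ℕ := fun v => 2 ^ (v.2 + 1) - 1

lemma wN_pos {s : ℕ} (v : Fin s × ℕ) : wN s v ≠ 0 := by
  have : 1 < 2 ^ (v.2 + 1) := Nat.one_lt_two_pow (by omega)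
  change 2 ^ (v.2 + 1) - 1 ≠ 0
  omega

lemma wN_gt {s t : ℕ} {v : Fin s × ℕ} (h : t ≤ v.2) : t < wN s v := by
  have h1 : v.2 + 1 < 2 ^ (v.2 + 1) := Nat.lt_two_pow_self
  change t < 2 ^ (v.2 + 1) - 1
  omega

lemma finite_mon (s t : ℕ) : {d : Fin s × ℕ →₀ ℕ | Finsupp.weight (wN s) d = t}.Finite := by
  refine Set.Finite.of_injOn (f := fun d => fun v : Fin s × Fin t =>
    (Fin.ofNat (t + 1) (d (v.1, (v.2 : ℕ))))) (t := Set.univ) (fun _ _ => Set.mem_univ _) ?_
    Set.finite_univ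
  intro d hd d' hd' h
  have hd1 : Finsupp.weight (wN s) d = t := hd
  have hd2 : Finsupp.weight (wN s) d' = t := hd'
  have key : ∀ e : Fin s × ℕ →₀ ℕ, Finsupp.weight (wN s) e = t → ∀ v, e v ≤ t ∧
      (t ≤ v.2 → e v = 0) := by
    intro e he v
    refine ⟨he ▸ Finsupp.le_weight (wN s) (wN_pos v) e, fun hv => ?_⟩
    by_contra hne
    have h1 := Finsupp.le_weight_of_ne_zero' (wN s) hne
    have h2 := wN_gt (s := s) hv
    omega
  ext v
  obtain ⟨v1, v2⟩ := v
  by_cases hv : t ≤ v2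
  · rw [(key d hd1 (v1, v2)).2 hv, (key d' hd2 (v1, v2)).2 hv]
  · have h1 := congrFun h (v1, ⟨v2, by omega⟩)
    simp only at h1
    have h2 := congrArg Fin.val h1
    rw [Fin.ofNat_eq_cast, Fin.ofNat_eq_cast, Fin.val_natCast, Fin.val_natCast,
      Nat.mod_eq_of_lt (by have := (key d hd1 (v1, v2)).1; omega),
      Nat.mod_eq_of_lt (by have := (key d' hd2 (v1, v2)).1; omega)] at h2
    exact h2

instance Hom_fd (s t : ℕ) : Module.Finite (ZMod 2) (Hom s t) := by
  have h : Hom s t = weightedHomogeneousSubmodule (ZMod 2) (wN s) t := rfl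
  rw [h, Module.Finite.iff_fg, weightedHomogeneousSubmodule_eq_finsupp_supported,
    ← Module.Finite.iff_fg]
  have := (finite_mon s t).to_subtype
  exact Module.Finite.of_basis (MvPolynomial.basisRestrictSupport (ZMod 2) _)

instance Zc_fd (s t : ℕ) : Module.Finite (ZMod 2) (Zc s t) :=
  Submodule.finiteDimensional_of_le (inf_le_left : Zc s t ≤ Hom s t)

instance Ext_fd (s t : ℕ) : Module.Finite (ZMod 2) (Ext s t) := inferInstance

/-- `Ext^{s,t}` with its structure of a vector space fixed. -/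
def EE (s t : ℕ) : Type := Ext s t

noncomputable instance (s t : ℕ) : AddCommGroup (EE s t) := inferInstanceAs (AddCommGroup (Ext s t))
noncomputable instance (s t : ℕ) : Module (ZMod 2) (EE s t) :=
  inferInstanceAs (Module (ZMod 2) (Ext s t))
instance EE_fd (s t : ℕ) : Module.Finite (ZMod 2) (EE s t) := Ext_fd s t

/-- The class of a cocycle. -/
noncomputable def clE {s t : ℕ} (z : Zc s t) : EE s t := cls z

lemma clE_zero {s t : ℕ} (z : Zc s t) : clE z = 0 ↔ (z : Cobar s) ∈ Bc s t := cls_zero z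

lemma clE_surj {s t : ℕ} (x : EE s t) : ∃ z : Zc s t, clE z = x := cls_surj x

/-- The product. -/
noncomputable def mulE (s N M : ℕ) (i : Fin (s + 1)) :
    EE i N →ₗ[ZMod 2] EE (s - i) M →ₗ[ZMod 2] EE s (N + M) := mulF s N M i

lemma mulE_cls {s N M : ℕ} {i : Fin (s + 1)} (x : Zc i N) (y : Zc (s - i) M) :
    mulE s N M i (clE x) (clE y) = clE ⟨juxF s i x y, juxF_Zc x.2 y.2⟩ := mulF_cls x y

/-- The total product map. -/
noncomputable def totE (s N M : ℕ) :
    (∀ i : Fin (s + 1), EE i N ⊗[ZMod 2] EE (s - i) M) →ₗ[ZMod 2] EE s (N + M) :=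
  totPhi (k := ZMod 2) (I := Fin (s + 1)) (V := fun i => EE i N) (W := fun i => EE (s - i) M)
    (U := EE s (N + M)) (fun i => mulE s N M i)

/-- The asymptotic Kuenneth formula in terms of tensor products. -/
theorem kunneth_bij (s : ℕ) : ∃ L : ℕ, ∀ a N M : ℕ, M < 2 ^ a → 0 < N → 2 ^ (a + L) ∣ N →
    Function.Bijective (totE s N M) := by
  obtain ⟨L, hL⟩ := kunnethE s
  refine ⟨L, fun a N M hM hN hd => ?_⟩
  obtain ⟨Z, _, f, h0, hM'⟩ := hL a M N (by omega) (by exact_mod_cast hM) (by exact_mod_cast hN)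
    (by exact_mod_cast hd)
  have hz : ∀ i : Fin (s + 1), ∃ b : Basis {j : Z // f.β j + 1 = (i : ℕ)} (ZMod 2) (EE i N),
      ∀ j, b j = clE (zc f i j) := by
    intro i
    obtain ⟨b, hb⟩ := basis_of_isBasis (zc_basis f h0 (Nat.le_of_lt_succ i.2))
    exact ⟨b, hb⟩
  choose z hz using hz
  refine totPhi_bij (k := ZMod 2) (I := Fin (s + 1)) (V := fun i => EE i N)
    (W := fun i => EE (s - i) M) (U := EE s (N + M)) (fun i => mulE s N M i) z ?_
  have h1 : (fun w : ∀ i : Fin (s + 1), {j : Z // f.β j + 1 = (i : ℕ)} → EE (s - i) M =>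
      ∑ i, ∑ j, mulE s N M i (z i j) (w i j)) = Psi f s M := by
    funext w
    simp only [hz]
    rfl
  rw [h1]
  exact ⟨Psi_inj f hM', Psi_surj f (hM' s le_rfl)⟩

/-- The dimension of `Ext^{s,t}`. -/
noncomputable def dm (s t : ℕ) : ℕ := finrank (ZMod 2) (EE s t)

lemma dm_kunneth {s N M : ℕ}
    (h : Function.Bijective (totE s N M)) :
    dm s (N + M) = ∑ i : Fin (s + 1), dm i N * dm (s - i) M := by
  have e := (LinearEquiv.ofBijective _ h).finrank_eq
  unfold dm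
  rw [← e, Module.finrank_pi_fintype]
  exact Finset.sum_congr rfl fun i _ => Module.finrank_tensorProduct

lemma dm_zero_iff {s t : ℕ} : dm s t = 0 ↔ Zc s t ≤ Bc s t := by
  unfold dm
  rw [Module.finrank_zero_iff]
  constructor
  · intro h p hp
    exact (clE_zero ⟨p, hp⟩).1 (Subsingleton.elim _ _)
  · intro h
    refine ⟨fun x y => ?_⟩
    obtain ⟨x, rfl⟩ := clE_surj x
    obtain ⟨y, rfl⟩ := clE_surj y
    rw [(clE_zero x).2 (h x.2), (clE_zero y).2 (h y.2)]

lemma dm_sq {s t : ℕ} (h : Function.Bijective (Sq0 s t)) : dm s (2 * t) = dm s t :=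
  (LinearEquiv.ofBijective _ h).finrank_eq.symm

/-- `Ext^{0,t} = 0` for `t > 0`. -/
lemma dm_zero_left {t : ℕ} (ht : 0 < t) : dm 0 t = 0 := by
  rw [dm_zero_iff]
  intro p hp
  obtain ⟨h1, h2, h3⟩ := th_Zc hp
  have h4 : th 0 p = 0 := lev_one h1 h2 (by exact_mod_cast ht.ne')
  rw [mem_Bc]
  exact ⟨0, Submodule.zero_mem _, isWeightedHomogeneous_zero _ _ _, by rw [h4, map_zero]⟩

end Pool.Agent.Work.MP_701abf_gt.Cob
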