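import Pool.Agent.Work.MP_701abf_gt.Cob.Dim

/-!
The line `s = 1`: primitive elements of the dual Steenrod algebra.
-/

open MvPolynomial
open Pool.Agent.Work.MP_701abf_gt.Stab

namespace Pool.Agent.Work.MP_701abf_gt.Cob

section points

variable {S : Type} [CommRing S] [Algebra (ZMod 2) S]

omit [Algebra (ZMod 2) S] in
/-- The point with a single nontrivial coordinate. -/
def dl (m : ℕ) (c : S) : Pt S where
  co n := if n = 0 then 1 else if n = m then c else 0
  co_zero := if_pos rfl

omit [Algebra (ZMod 2) S] in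
lemma dl_mul {m : ℕ} (hm : 0 < m) (c : S) (h : Pt S) (n : ℕ) :
    (dl m c * h).co n = h.co n + if m ≤ n then c ^ 2 ^ (n - m) * h.co (n - m) else 0 := by
  rw [Pt.co_mul, Finset.Nat.sum_antidiagonal_eq_sum_range_succ_mk]
  have e : ∀ i ∈ Finset.range n.succ, (dl m c).co i ^ 2 ^ (n - i) * h.co (n - i) =
      (if i = 0 then h.co n else 0) + (if i = m then c ^ 2 ^ (n - m) * h.co (n - m) else 0) := by
    intro i _
    by_cases h0 : i = 0
    · subst h0
      rw [if_pos rfl, if_neg (by omega), add_zero, Pt.co_zero, one_pow, one_mul, Nat.sub_zero]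
    · rw [if_neg h0, zero_add]
      by_cases h1 : i = m
      · subst h1
        rw [if_pos rfl]
        simp only [dl, if_neg h0, if_true]
      · rw [if_neg h1]
        simp only [dl, if_neg h0, if_neg h1]
        rw [zero_pow (by positivity), zero_mul]
  rw [Finset.sum_congr rfl e, Finset.sum_add_distrib, Finset.sum_ite_eq', Finset.sum_ite_eq',
    if_pos (Finset.mem_range.2 (by omega))]
  congr 1
  by_cases h1 : m ≤ n
  · rw [if_pos (Finset.mem_range.2 (by omega)), if_pos h1]
  · rw [if_neg (fun h => h1 (by have := Finset.mem_range.1 h; omega)), if_neg h1]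

omit [Algebra (ZMod 2) S] in
lemma mul_dl {m : ℕ} (hm : 0 < m) (c : S) (g : Pt S) (n : ℕ) :
    (g * dl m c).co n = g.co n + if m ≤ n then g.co (n - m) ^ 2 ^ m * c else 0 := by
  rw [Pt.co_mul, ← Finset.Nat.sum_antidiagonal_swap,
    Finset.Nat.sum_antidiagonal_eq_sum_range_succ_mk]
  have e : ∀ i ∈ Finset.range n.succ, g.co (n - i) ^ 2 ^ i * (dl m c).co i =
      (if i = 0 then g.co n else 0) + (if i = m then g.co (n - m) ^ 2 ^ m * c else 0) := by
    intro i _
    by_cases h0 : i = 0
    · subst h0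
      rw [if_pos rfl, if_neg (by omega), add_zero, Pt.co_zero, mul_one, Nat.sub_zero, pow_zero,
        pow_one]
    · rw [if_neg h0, zero_add]
      by_cases h1 : i = m
      · subst h1
        rw [if_pos rfl]
        simp only [dl, if_neg h0, if_true]
      · rw [if_neg h1]
        simp only [dl, if_neg h0, if_neg h1]
        rw [mul_zero]
  simp only [Prod.swap]
  rw [Finset.sum_congr rfl e, Finset.sum_add_distrib, Finset.sum_ite_eq', Finset.sum_ite_eq',
    if_pos (Finset.mem_range.2 (by omega))]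
  congr 1
  by_cases h1 : m ≤ n
  · rw [if_pos (Finset.mem_range.2 (by omega)), if_pos h1]
  · rw [if_neg (fun h => h1 (by have := Finset.mem_range.1 h; omega)), if_neg h1]

omit [Algebra (ZMod 2) S] in
lemma dl_co {m : ℕ} (c : S) {n : ℕ} (hn : n ≠ 0) : (dl m c).co n = if n = m then c else 0 :=
  if_neg hn

/-- The coordinates of the (absent) coefficients. -/
def w0 : Empty → ℕ → S := fun e => e.elim

/-- The value of a cochain at a point (placed in all slots). -/
noncomputable def vl (x : RR Empty) (g : Pt S) : S := ev (fun _ => g) w0 x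

lemma vl_map {S' : Type} [CommRing S'] [Algebra (ZMod 2) S'] (φ : S →ₐ[ZMod 2] S') (x : RR Empty)
    (g : Pt S) : φ (vl x g) = vl x (mapPt φ g) := by
  have h : φ.comp (ev (fun _ => g) w0) = ev (fun _ => mapPt φ g) (w0 (S := S')) := by
    rw [comp_ev]
    congr 1
    funext e
    exact e.elim
  exact congrArg (fun ψ => ψ x) h

lemma vl_d {x : RR Empty} (hx : x ∈ lev Empty 2) (c : ℕ → Pt S) :
    ev c (w0 (S := S)) (dE 2 x) = vl x (c 1) + vl x (c 1 * c 0) + vl x (c 0) := by
  rw [dR_apply]
  simp only [Finset.sum_range_succ, Finset.range_zero, Finset.sum_empty, zero_add]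
  rw [map_add, map_add, ev_face_apply, ev_face_apply, ev_face_apply]
  have hw : ∀ j, fw (fun _ : Empty => 0) j c (w0 (S := S)) = w0 := by
    intro j
    funext e
    exact e.elim
  have hp := mem_lev_succ.1 hx
  have e0 : ev (fg 0 c) (fw (fun _ : Empty => 0) 0 c w0) x = vl x (c 1) := by
    rw [hw]
    refine ev_prj' (fun a ha => ?_) hp
    have : a = 0 := by omega
    subst this
    rfl
  have e1 : ev (fg 1 c) (fw (fun _ : Empty => 0) 1 c w0) x = vl x (c 1 * c 0) := by
    rw [hw]
    refine ev_prj' (fun a ha => ?_) hp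
    have : a = 0 := by omega
    subst this
    rfl
  have e2 : ev (fg 2 c) (fw (fun _ : Empty => 0) 2 c w0) x = vl x (c 0) := by
    rw [hw]
    refine ev_prj' (fun a ha => ?_) hp
    have : a = 0 := by omega
    subst this
    rfl
  rw [e0, e1, e2]

lemma vl_add {x : RR Empty} (hx : x ∈ lev Empty 2) (hd : dE 2 x = 0) (g h : Pt S) :
    vl x (g * h) = vl x g + vl x h := by
  have h0 := vl_d hx (fun a => if a = 0 then h else g)
  rw [hd, map_zero] at h0
  have h1 : vl x (g * h) + (vl x g + vl x h) = 0 := by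
    have h2 : (0 : S) = vl x g + vl x (g * h) + vl x h := h0
    rw [h2]
    ring
  rw [← sub_eq2] at h1
  exact sub_eq_zero.1 h1

end points

/-- Dependence on the first `m` coordinates only. -/
def Dep (x : RR Empty) (m : ℕ) : Prop :=
  ∀ (S : Type) [CommRing S] [Algebra (ZMod 2) S] (g g' : Pt S), (∀ n ≤ m, g.co n = g'.co n) →
    vl x g = vl x g'

lemma exists_dep (x : RR Empty) : ∃ m, Dep x m := by
  refine ⟨(x.vars.sup fun v => Sum.elim (fun v => v.2 + 1) (fun v => v.1.elim) v), ?_⟩
  intro S _ _ g g' h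
  refine eval₂Hom_congr' rfl (fun v hv _ => ?_) rfl
  rcases v with v | v
  · refine h _ ?_
    have := Finset.le_sup (f := fun v : (ℕ × ℕ) ⊕ (Empty × ℕ) =>
      Sum.elim (fun v => v.2 + 1) (fun v => v.1.elim) v) hv
    exact this
  · exact v.1.elim

lemma mapPt_dl {S S' : Type} [CommRing S] [Algebra (ZMod 2) S] [CommRing S'] [Algebra (ZMod 2) S']
    (φ : S →ₐ[ZMod 2] S') (m : ℕ) (c : S) : mapPt φ (dl m c) = dl m (φ c) := by
  ext n
  rw [mapPt_co]
  by_cases h0 : n = 0
  · subst h0
    rw [Pt.co_zero, Pt.co_zero, map_one]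
  · rw [dl_co _ h0, dl_co _ h0]
    split_ifs
    · rfl
    · exact map_zero _

/-- The polynomial giving the values at points with one coordinate. -/
noncomputable def qp (x : RR Empty) (m : ℕ) : Polynomial (ZMod 2) := vl x (dl m Polynomial.X)

lemma vl_dl {S : Type} [CommRing S] [Algebra (ZMod 2) S] (x : RR Empty) (m : ℕ) (c : S) :
    vl x (dl m c) = Polynomial.aeval c (qp x m) := by
  unfold qp
  rw [vl_map, mapPt_dl, Polynomial.aeval_X]

lemma vl_one {S : Type} [CommRing S] [Algebra (ZMod 2) S] {x : RR Empty} (hx : x ∈ lev Empty 2)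
    (hd : dE 2 x = 0) : vl x (1 : Pt S) = 0 := by
  have h := vl_add (S := S) hx hd 1 1
  rw [mul_one, add_self2] at h
  exact h

lemma dl_zero {S : Type} [CommRing S] (m : ℕ) : dl m (0 : S) = 1 := by
  ext n
  by_cases h0 : n = 0
  · subst h0
    rw [Pt.co_zero, Pt.co_zero]
  · rw [dl_co _ h0, Pt.co_one_ne h0]
    split_ifs <;> rfl

lemma qp_zero {x : RR Empty} (hx : x ∈ lev Empty 2) (hd : dE 2 x = 0) {m : ℕ}
    (h : Dep x m) (hm : 2 ≤ m) : qp x m = 0 := by
  -- compare the two products of `dl 1 X` and `dl (m - 1) 1`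
  have key : Polynomial.aeval (Polynomial.X ^ 2 ^ (m - 1) : Polynomial (ZMod 2)) (qp x m) =
      Polynomial.aeval (Polynomial.X : Polynomial (ZMod 2)) (qp x m) := by
    let u : Polynomial (ZMod 2) := Polynomial.X
    have h1 := vl_add (S := Polynomial (ZMod 2)) hx hd (dl 1 u) (dl (m - 1) 1)
    have h2 := vl_add (S := Polynomial (ZMod 2)) hx hd (dl (m - 1) 1) (dl 1 u)
    -- a common point
    let b : Pt (Polynomial (ZMod 2)) :=
      { co := fun n => if n = 0 then 1 else
          (if n = 1 then u else 0) + (if n = m - 1 then 1 else 0)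
        co_zero := if_pos rfl }
    have hb : ∀ n, n ≠ 0 → b.co n = (if n = 1 then u else 0) + (if n = m - 1 then 1 else 0) :=
      fun n hn => if_neg hn
    have e1 : vl x (dl 1 u * dl (m - 1) 1) = vl x (dl m (u ^ 2 ^ (m - 1)) * b) := by
      refine h _ _ _ fun n hn => ?_
      rw [mul_dl (by omega), dl_mul (by omega)]
      by_cases h0 : n = 0
      · subst h0
        rw [Pt.co_zero, Pt.co_zero, if_neg (by omega), if_neg (by omega)]
      · rw [dl_co _ h0, hb n h0]
        by_cases hn1 : n < m - 1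
        · rw [if_neg (by omega : ¬ (m - 1 ≤ n)), if_neg (by omega : ¬ (m ≤ n)),
            if_neg (by omega : ¬ (n = m - 1)), add_zero, add_zero]
        · by_cases hn2 : n = m - 1
          · rw [if_pos (by omega : m - 1 ≤ n), if_neg (by omega : ¬ (m ≤ n)), if_pos hn2, hn2,
              Nat.sub_self, Pt.co_zero, one_pow, mul_one, add_zero]
          · have hn3 : n = m := by omega
            rw [if_pos (by omega : m - 1 ≤ n), if_pos (by omega : m ≤ n), if_neg hn2, hn3,
              Nat.sub_self, Pt.co_zero, pow_zero, pow_one, mul_one, mul_one,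
              show m - (m - 1) = 1 by omega, dl_co _ one_ne_zero, if_pos rfl, add_zero]
    have e2 : vl x (dl (m - 1) 1 * dl 1 u) = vl x (dl m u * b) := by
      refine h _ _ _ fun n hn => ?_
      rw [dl_mul (by omega), dl_mul (by omega)]
      by_cases h0 : n = 0
      · subst h0
        rw [Pt.co_zero, Pt.co_zero, if_neg (by omega), if_neg (by omega)]
      · rw [dl_co _ h0, hb n h0]
        by_cases hn1 : n < m - 1
        · rw [if_neg (by omega : ¬ (m - 1 ≤ n)), if_neg (by omega : ¬ (m ≤ n)),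
            if_neg (by omega : ¬ (n = m - 1)), add_zero, add_zero]
        · by_cases hn2 : n = m - 1
          · rw [if_pos (by omega : m - 1 ≤ n), if_neg (by omega : ¬ (m ≤ n)), if_pos hn2, hn2,
              Nat.sub_self, Pt.co_zero, pow_zero, pow_one, mul_one, add_zero]
          · have hn3 : n = m := by omega
            rw [if_pos (by omega : m - 1 ≤ n), if_pos (by omega : m ≤ n), if_neg hn2, hn3,
              Nat.sub_self, Pt.co_zero, pow_zero, pow_one, mul_one, one_pow, one_mul,
              show m - (m - 1) = 1 by omega, dl_co _ one_ne_zero, if_pos rfl, add_zero]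
    rw [e1, vl_add hx hd] at h1
    rw [e2, vl_add hx hd] at h2
    have h3 : vl x (dl m (u ^ 2 ^ (m - 1))) = vl x (dl m u) := by
      have h4 : vl x (dl m (u ^ 2 ^ (m - 1))) + vl x b = vl x (dl m u) + vl x b := by
        rw [h1, h2, add_comm]
      exact add_right_cancel h4
    rw [vl_dl, vl_dl] at h3
    exact h3
  rw [Polynomial.aeval_X_left_apply] at key
  have h1 : (qp x m).natDegree * 2 ^ (m - 1) = (qp x m).natDegree := by
    conv_rhs => rw [← key]
    have : Polynomial.aeval (Polynomial.X ^ 2 ^ (m - 1) : Polynomial (ZMod 2)) (qp x m) =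
        (qp x m).comp (Polynomial.X ^ 2 ^ (m - 1)) := rfl
    rw [this, Polynomial.natDegree_comp, Polynomial.natDegree_X_pow]
  have h2 : 1 < 2 ^ (m - 1) := Nat.one_lt_two_pow (by omega)
  have h3 : (qp x m).natDegree = 0 := by
    by_contra hne
    have : 0 < (qp x m).natDegree := Nat.pos_of_ne_zero hne
    nlinarith
  have h4 : vl x (dl m (0 : ZMod 2)) = 0 := by
    rw [dl_zero]
    exact vl_one hx hd
  rw [vl_dl] at h4
  rw [Polynomial.eq_C_of_natDegree_eq_zero h3] at h4 ⊢
  rw [Polynomial.aeval_C] at h4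
  have h5 : (qp x m).coeff 0 = 0 := h4
  rw [h5, Polynomial.C_0]

lemma Dep.pred {x : RR Empty} (hx : x ∈ lev Empty 2) (hd : dE 2 x = 0) {m : ℕ}
    (h : Dep x m) (hm : 2 ≤ m) : Dep x (m - 1) := by
  intro S _ _ g g' hg
  -- remove the `m`-th coordinate
  have key : ∀ k : Pt S, ∃ k0 : Pt S, (∀ n, k0.co n = if n < m then k.co n else 0) ∧
      vl x k = vl x k0 := by
    intro k
    let k0 : Pt S :=
      { co := fun n => if n < m then k.co n else 0
        co_zero := by rw [if_pos (by omega), k.co_zero] }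
    refine ⟨k0, fun n => rfl, ?_⟩
    have e1 : vl x k = vl x (dl m (k.co m) * k0) := by
      refine h _ _ _ fun n hn => ?_
      rw [dl_mul (by omega)]
      by_cases hn1 : n < m
      · rw [if_neg (by omega : ¬ (m ≤ n)), add_zero]
        exact (if_pos hn1).symm
      · have hn2 : n = m := by omega
        subst hn2
        rw [if_pos le_rfl, Nat.sub_self, pow_zero, pow_one, k0.co_zero, mul_one]
        have : k0.co n = 0 := if_neg (lt_irrefl n)
        rw [this, zero_add]
    rw [e1, vl_add hx hd, vl_dl, qp_zero hx hd h hm, map_zero, zero_add]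
  obtain ⟨k, hk, e⟩ := key g
  obtain ⟨k', hk', e'⟩ := key g'
  rw [e, e']
  refine h _ _ _ fun n hn => ?_
  rw [hk, hk']
  split_ifs with h1
  · exact hg n (by omega)
  · rfl

lemma dep_one {x : RR Empty} (hx : x ∈ lev Empty 2) (hd : dE 2 x = 0) : Dep x 1 := by
  obtain ⟨m, hm⟩ := exists_dep x
  have key : ∀ m, Dep x m → Dep x 1 := by
    intro m
    induction m with
    | zero =>
      intro h S _ _ g g' hg
      exact h S g g' fun n hn => hg n (by omega)
    | succ m ih =>
      intro h
      rcases Nat.eq_zero_or_pos m with h0 | h0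
      · subst h0
        exact h
      · exact ih (h.pred hx hd (by omega))
  exact key m hm

/-- `(X + 1)^N = X^N + 1` only for powers of two. -/
lemma pow_two_of_add {N : ℕ} (hN : 0 < N)
    (h : ((Polynomial.X : Polynomial (ZMod 2)) + 1) ^ N = Polynomial.X ^ N + 1) :
    ∃ a, N = 2 ^ a := by
  induction N using Nat.strong_induction_on with
  | _ N ih =>
    by_cases h1 : N = 1
    · exact ⟨0, by rw [h1, pow_zero]⟩
    have hc := congrArg (fun q => Polynomial.coeff q 1) h
    rw [Polynomial.coeff_X_add_one_pow, Polynomial.coeff_add, Polynomial.coeff_X_pow,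
      if_neg (Ne.symm h1), Polynomial.coeff_one, if_neg one_ne_zero, add_zero,
      Nat.choose_one_right] at hc
    have he : 2 ∣ N := (ZMod.natCast_eq_zero_iff N 2).1 hc
    obtain ⟨M, rfl⟩ := he
    have h2 : (((Polynomial.X : Polynomial (ZMod 2)) + 1) ^ M) ^ 2 =
        (Polynomial.X ^ M + 1) ^ 2 := by
      rw [← pow_mul, mul_comm M 2, h]
      have h3 : (2 : Polynomial (ZMod 2)) = 0 := by
        have h : (Polynomial.C (2 : ZMod 2)) = 2 := map_ofNat _ 2
        rw [← h, show (2 : ZMod 2) = 0 from rfl, map_zero]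
      rw [add_sq, h3, zero_mul, zero_mul, add_zero, one_pow, ← pow_mul, mul_comm M 2]
    have h4 : ((Polynomial.X : Polynomial (ZMod 2)) + 1) ^ M = Polynomial.X ^ M + 1 :=
      frobenius_inj (Polynomial (ZMod 2)) 2 h2
    obtain ⟨a, ha⟩ := ih M (by omega) (by omega) h4
    exact ⟨a + 1, by rw [ha, pow_succ]; ring⟩

/-- The primitive elements of the dual Steenrod algebra. -/
theorem primitive_form {x : RR Empty} (hx : x ∈ lev Empty 2) (hd : dE 2 x = 0) {N : ℕ}
    (hN : 0 < N) (hw : WH wE x (0, (N : ℤ))) :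
    x = 0 ∨ ∃ a, N = 2 ^ a ∧ x = h0c ^ 2 ^ a := by
  have hD := dep_one hx hd
  -- `x` is a polynomial in `ξ_1`
  have e1 : x = Polynomial.aeval (X (Sum.inl (0, 0)) : RR Empty) (qp x 1) := by
    rw [← vl_dl]
    have h2 : vl x (gG 0 : Pt (RR Empty)) = x := by
      have h3 : ev gG (w0 (S := RR Empty)) x = ev (fun _ => gG 0) w0 x := by
        refine ev_prj' (fun a ha => ?_) (mem_lev_succ.1 hx)
        have : a = 0 := by omega
        rw [this]
      have h4 : ev gG (w0 (S := RR Empty)) = AlgHom.id (ZMod 2) (RR Empty) := by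
        refine algHom_ext fun v => ?_
        rcases v with v | v
        · rw [ev_inl]; rfl
        · exact v.1.elim
      rw [h4] at h3
      exact h3.symm
    conv_lhs => rw [← h2]
    refine hD _ _ _ fun n hn => ?_
    rcases Nat.eq_zero_or_pos n with h0 | h0
    · subst h0
      rw [Pt.co_zero, Pt.co_zero]
    · have : n = 1 := by omega
      subst this
      rw [dl_co _ one_ne_zero, if_pos rfl]
      rfl
  -- the weights
  have e2 : x = (qp x 1).coeff N • h0c ^ N := by
    have h1 : x = ∑ k ∈ Finset.range ((qp x 1).natDegree + 1), (qp x 1).coeff k • h0c ^ k := by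
      conv_lhs => rw [e1]
      rw [Polynomial.aeval_eq_sum_range]
      rfl
    have hk : ∀ k : ℕ, WH wE (h0c ^ k) (0, (k : ℤ)) := by
      intro k
      have h := h0c_wh.pow k
      have e : k • (((0 : ℤ × ℤ), (1 : ℤ)) : (ℤ × ℤ) × ℤ) = (0, (k : ℤ)) := by
        rw [Prod.smul_mk, smul_zero, nsmul_eq_mul, mul_one]
      rw [e] at h
      exact h
    have h3 : cmp wE (0, (N : ℤ)) x = (qp x 1).coeff N • h0c ^ N := by
      conv_lhs => rw [h1]
      rw [map_sum]
      by_cases hN' : N ∈ Finset.range ((qp x 1).natDegree + 1)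
      · rw [Finset.sum_eq_single_of_mem N hN', map_smul, cmp_same (hk N)]
        intro k _ hne
        rw [map_smul, cmp_ne (hk k), smul_zero]
        intro h
        have := (Prod.mk.inj h).2
        exact hne (by exact_mod_cast this.symm)
      · have h4 : (qp x 1).coeff N = 0 := by
          refine Polynomial.coeff_eq_zero_of_natDegree_lt ?_
          by_contra hcon
          exact hN' (Finset.mem_range.2 (by omega))
        rw [h4, zero_smul]
        refine Finset.sum_eq_zero fun k hkm => ?_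
        rw [map_smul, cmp_ne (hk k), smul_zero]
        intro h
        have := (Prod.mk.inj h).2
        have h5 : N = k := by exact_mod_cast this
        exact hN' (h5 ▸ hkm)
    rw [← h3, cmp_same hw]
  have hc : (qp x 1).coeff N = 0 ∨ (qp x 1).coeff N = 1 := by
    generalize (qp x 1).coeff N = c
    revert c
    decide
  rcases hc with hc | hc
  · left
    rw [e2, hc, zero_smul]
  · right
    rw [hc, one_smul] at e2
    have h1 := vl_add (S := Polynomial (ZMod 2)) hx hd (dl 1 Polynomial.X) (dl 1 1)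
    have hv : ∀ g : Pt (Polynomial (ZMod 2)), vl x g = g.co 1 ^ N := by
      intro g
      conv_lhs => rw [e2]
      unfold vl h0c
      rw [map_pow, ev_inl]
    rw [hv, hv, hv, dl_mul one_pos, if_pos le_rfl, Nat.sub_self, Pt.co_zero, pow_zero, pow_one,
      mul_one, dl_co _ one_ne_zero, if_pos rfl, dl_co _ one_ne_zero, if_pos rfl, one_pow,
      add_comm] at h1
    obtain ⟨a, ha⟩ := pow_two_of_add hN h1
    exact ⟨a, ha, by rw [← ha]; exact e2⟩

/-- The cocycle `ξ_1^(2^a)` representing `h_a`. -/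
lemma ha_Zc (a : ℕ) : ((xi (0 : Fin 1) 1 : Cobar 1) ^ 2 ^ a) ∈ Zc 1 (2 ^ a) := by
  have := fr_Zc (j := a) xi_Zc
  rw [mul_one] at this
  exact this

/-- The class `h_a`. -/
noncomputable def hE (a : ℕ) : EE 1 (2 ^ a) := clE ⟨_, ha_Zc a⟩

lemma Bc_one {t : ℕ} {p : Cobar 1} (h : p ∈ Bc 1 t) : p = 0 := by
  obtain ⟨G, hG, hw, e⟩ := mem_Bc.1 h
  apply th_inj
  rw [← e, map_zero]
  have h1 := dR_dR' (fun _ : Empty => 0) hG
  have h2 : dE 1 G = 0 := by
    have h3 : face (fun _ : Empty => 0) 0 G = G ∧ face (fun _ : Empty => 0) 1 G = G := by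
      have hp := mem_lev_succ.1 hG
      constructor
      · have e0 : face (fun _ : Empty => 0) 0 G = ev gG gW G := by
          unfold face
          have hw : fw (fun _ : Empty => 0) 0 (gG (ι := Empty)) gW = gW := by
            funext e
            exact e.elim
          rw [hw]
          exact ev_prj' (fun a ha => by omega) hp
        rw [e0]
        have : ev gG gW = AlgHom.id (ZMod 2) (RR Empty) := by
          refine algHom_ext fun v => ?_
          rcases v with v | v
          · rw [ev_inl]; rfl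
          · exact v.1.elim
        rw [this]; rfl
      · exact face_high _ (le_refl 0) hG
    rw [dR_apply]
    simp only [Finset.sum_range_succ, Finset.range_zero, Finset.sum_empty, zero_add]
    rw [h3.1, h3.2, add_self2]
  exact h2

lemma hE_ne (a : ℕ) : hE a ≠ 0 := by
  intro h
  have h1 := Bc_one ((clE_zero _).1 h)
  exact pow_ne_zero _ (X_ne_zero _) h1

lemma ext1_span {N : ℕ} (hN : 0 < N) (x : EE 1 N) :
    x = 0 ∨ ∃ (a : ℕ) (h : N = 2 ^ a), x = h ▸ hE a := by
  obtain ⟨z, rfl⟩ := clE_surj x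
  obtain ⟨h1, h2, h3⟩ := th_Zc z.2
  rcases primitive_form h1 h3 hN h2 with h | ⟨a, rfl, h⟩
  · left
    have : (z : Cobar 1) = 0 := th_inj 1 (by rw [h, map_zero])
    rw [clE_zero, this]
    exact Submodule.zero_mem _
  · right
    refine ⟨a, rfl, ?_⟩
    have : (z : Cobar 1) = xi 0 1 ^ 2 ^ a := by
      apply th_inj 1
      rw [h, map_pow]
      congr 1
      exact (th_X 1 (0, 0)).symm
    change clE z = clE _
    congr 1
    exact Subtype.ext this

lemma dm_one_pow (a : ℕ) : dm 1 (2 ^ a) = 1 := by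
  unfold dm
  rw [finrank_eq_one_iff']
  refine ⟨hE a, hE_ne a, fun w => ?_⟩
  rcases ext1_span (by positivity) w with h | ⟨b, hb, h⟩
  · exact ⟨0, by rw [h, zero_smul]⟩
  · have : a = b := Nat.pow_right_injective le_rfl hb
    subst this
    exact ⟨1, by rw [h, one_smul]⟩

lemma dm_one_ne {N : ℕ} (hN : 0 < N) (h : dm 1 N ≠ 0) : ∃ a, N = 2 ^ a := by
  by_contra hcon
  apply h
  unfold dm
  rw [Module.finrank_zero_iff]
  refine ⟨fun x y => ?_⟩
  have key : ∀ x : EE 1 N, x = 0 := by
    intro x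
    rcases ext1_span hN x with h | ⟨a, ha, _⟩
    · exact h
    · exact absurd ⟨a, ha⟩ hcon
  rw [key x, key y]

/-! ### `h_a^2 ≠ 0` -/

lemma vl_dl_two {y : RR Empty} {t : ℤ} (hw : WH wE y (0, t)) (ht : ¬ (3 : ℤ) ∣ t) :
    vl y (dl 2 (1 : ZMod 2)) = 0 := by
  unfold vl ev
  rw [aeval_def, eval₂_eq]
  refine Finset.sum_eq_zero fun d hd => ?_
  have h1 : Finsupp.weight wE d = (0, t) := hw (mem_support_iff.1 hd)
  by_cases hall : ∀ v ∈ d.support, wE v = (0, 3)
  · exfalso
    apply ht
    rw [Finsupp.weight_apply, Finsupp.sum] at h1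
    have h2 : ∑ v ∈ d.support, d v • wE v = ∑ v ∈ d.support, (0, (d v : ℤ) * 3) := by
      refine Finset.sum_congr rfl fun v hv => ?_
      rw [hall v hv, Prod.smul_mk, smul_zero, nsmul_eq_mul]
    rw [h2] at h1
    have h3 := congrArg Prod.snd h1
    rw [Prod.snd_sum, ← Finset.sum_mul] at h3
    refine ⟨∑ v ∈ d.support, (d v : ℤ), ?_⟩
    have h4 : (∑ v ∈ d.support, (d v : ℤ)) * 3 = t := h3
    rw [← h4, mul_comm]
  · push Not at hall
    obtain ⟨v, hv, hne⟩ := hall
    rw [Finset.prod_eq_zero hv, mul_zero]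
    have h0 : Sum.elim (fun v : ℕ × ℕ => (dl 2 (1 : ZMod 2)).co (v.2 + 1))
        (fun v : Empty × ℕ => w0 v.1 v.2) v = 0 := by
      rcases v with v | v
      · change (dl 2 (1 : ZMod 2)).co (v.2 + 1) = 0
        rw [dl_co _ (Nat.succ_ne_zero _), if_neg]
        intro h
        apply hne
        change ((0 : ℤ × ℤ), (2 : ℤ) ^ (v.2 + 1) - 1) = (0, 3)
        have h' : v.2 + 1 = 2 := h
        rw [h']
        norm_num
      · exact v.1.elim
    rw [h0, zero_pow (Finsupp.mem_support_iff.1 hv)]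

lemma not_three_dvd (a : ℕ) : ¬ (3 : ℤ) ∣ ((2 ^ a : ℕ) : ℤ) := by
  intro h
  have h1 : (3 : ℕ) ∣ 2 ^ a := by exact_mod_cast h
  have h2 := Nat.Prime.dvd_of_dvd_pow Nat.prime_three h1
  omega

/-- `h_a^2 ≠ 0`. -/
theorem ha_sq (a : ℕ) : jux 1 1 (xi 0 1 ^ 2 ^ a) (xi 0 1 ^ 2 ^ a) ∉ Bc 2 (2 ^ a + 2 ^ a) := by
  intro h
  obtain ⟨y, hy, hw, e⟩ := mem_Bc.1 h
  have e0 : th 1 (xi (0 : Fin 1) 1) = h0c := th_X 1 (0, 0)
  have e1 : th 2 (jux 1 1 (xi 0 1 ^ 2 ^ a) (xi 0 1 ^ 2 ^ a)) =
      h0c ^ 2 ^ a * sh 1 (h0c ^ 2 ^ a) := by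
    have := th_jux 1 1 (xi 0 1 ^ 2 ^ a) (xi 0 1 ^ 2 ^ a)
    rw [map_pow, e0] at this
    exact this
  have h1 := vl_d (S := ZMod 2) hy (fun _ => dl 1 1)
  rw [e, e1] at h1
  have h2 : ev (fun _ => dl 1 (1 : ZMod 2)) w0 (h0c ^ 2 ^ a * sh 1 (h0c ^ 2 ^ a)) = 1 := by
    unfold h0c
    rw [map_mul, map_pow, map_pow, map_pow, sh_inl, ev_inl, ev_inl]
    simp only [dl_co _ one_ne_zero, zero_add, if_true, one_pow, mul_one]
  have h3 : (dl 1 (1 : ZMod 2)) * dl 1 1 = dl 2 1 := by
    ext n
    rw [dl_mul one_pos]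
    rcases Nat.eq_zero_or_pos n with h0 | h0
    · subst h0
      rfl
    · rw [if_pos (show 1 ≤ n from h0), one_pow, one_mul, dl_co _ h0.ne', dl_co _ h0.ne']
      by_cases hn1 : n = 1
      · subst hn1
        rfl
      · rw [if_neg hn1, zero_add, dl_co _ (by omega)]
        by_cases hn2 : n = 2
        · rw [if_pos (by omega), if_pos hn2]
        · rw [if_neg (by omega), if_neg hn2]
  rw [h2, h3] at h1
  have h4 : vl y (dl 2 (1 : ZMod 2)) = 0 := by
    refine vl_dl_two hw ?_
    have : 2 ^ a + 2 ^ a = 2 ^ (a + 1) := by rw [pow_succ]; ring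
    rw [this]
    exact not_three_dvd _
  rw [h4, add_zero, add_self2] at h1
  exact one_ne_zero h1

end Pool.Agent.Work.MP_701abf_gt.Cob
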