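import Pool.Agent.Work.MP_701abf_gt.Cob.OpsDefs

/-!
Bases of `Ext^{s,t}` and the Kuenneth property.
-/

open MvPolynomial

namespace Pool.Agent.Work.MP_701abf_gt.Cob

noncomputable section

/-- The classes of the cocycles `x k` form a basis of `Ext^{s,t}`. -/
def IsBasis (s t : ℕ) {K : Type} (x : K → Cobar s) : Prop :=
  (∀ k, x k ∈ Zc s t) ∧
  (∀ c : K →₀ ZMod 2, Finsupp.linearCombination (ZMod 2) x c ∈ Bc s t → c = 0) ∧
  (∀ p ∈ Zc s t, ∃ c : K →₀ ZMod 2, p - Finsupp.linearCombination (ZMod 2) x c ∈ Bc s t)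

/-- The juxtaposition `[p | q]` as a cochain of degree `s`, for `p` of degree `i` and `q` of
degree `s - i`. -/
def juxF (s : ℕ) (i : Fin (s + 1)) (p : Cobar i) (q : Cobar (s - i)) : Cobar s :=
  rename (fun v => (Fin.cast (Nat.add_sub_cancel' (Nat.le_of_lt_succ i.2)) v.1, v.2))
    (jux i (s - i) p q)

/-- The Kuenneth formula for the line `s` in degree `N + M`: for all families of cocycles `x i`
representing bases of `Ext^{i,N}` and `y j` representing bases of `Ext^{j,M}`, `i, j ≤ s`, the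
products of the members of `x i` and `y (s - i)` represent a basis of `Ext^{s,N+M}`. In other
words `⨁ i, Ext^{i,N} ⊗ Ext^{s-i,M} → Ext^{s,N+M}` is an isomorphism. -/
def Kunneth (s N M : ℕ) : Prop :=
  ∀ (K K' : ℕ → Type) (x : ∀ i, K i → Cobar i) (y : ∀ j, K' j → Cobar j),
    (∀ i ≤ s, IsBasis i N (x i)) → (∀ j ≤ s, IsBasis j M (y j)) →
    IsBasis s (N + M) (fun v : (i : Fin (s + 1)) × K i × K' (s - i) =>
      juxF s v.1 (x v.1 v.2.1) (y (s - v.1) v.2.2))

end

end Pool.Agent.Work.MP_701abf_gt.Cob
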