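import Mathlib

/-!
A basis of a direct sum of tensor products.
-/

namespace Pool.Agent.Work.MP_701abf_gt.Cob

open TensorProduct Module

section abs

variable {k : Type} [Field k] {I : Type} [Fintype I] [DecidableEq I]
  {V W : I → Type} [∀ i, AddCommGroup (V i)] [∀ i, Module k (V i)]
  [∀ i, AddCommGroup (W i)] [∀ i, Module k (W i)] {U : Type} [AddCommGroup U] [Module k U]

/-- The total product map. -/
noncomputable def totPhi (φ : ∀ i, V i →ₗ[k] W i →ₗ[k] U) : (∀ i, V i ⊗[k] W i) →ₗ[k] U :=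
  ∑ i, (TensorProduct.lift (φ i)).comp (LinearMap.proj i)

lemma totPhi_apply (φ : ∀ i, V i →ₗ[k] W i →ₗ[k] U) (u : ∀ i, V i ⊗[k] W i) :
    totPhi φ u = ∑ i, TensorProduct.lift (φ i) (u i) := by
  unfold totPhi
  rw [LinearMap.sum_apply]
  rfl

lemma totPhi_bij (φ : ∀ i, V i →ₗ[k] W i →ₗ[k] U) {Z : I → Type} [∀ i, Fintype (Z i)]
    (z : ∀ i, Basis (Z i) k (V i))
    (hb : Function.Bijective (fun w : ∀ i, Z i → W i => ∑ i, ∑ j, φ i (z i j) (w i j))) :
    Function.Bijective (totPhi φ) := by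
  classical
  let E : (∀ i, V i ⊗[k] W i) ≃ₗ[k] (∀ i, Z i → W i) :=
    LinearEquiv.piCongrRight fun i =>
      (TensorProduct.equivFinsuppOfBasisLeft (z i)).trans
        (Finsupp.linearEquivFunOnFinite k (W i) (Z i))
  have h : (totPhi φ : (∀ i, V i ⊗[k] W i) → U) =
      (fun w : ∀ i, Z i → W i => ∑ i, ∑ j, φ i (z i j) (w i j)) ∘ E := by
    funext u
    obtain ⟨w, rfl⟩ := E.symm.surjective u
    rw [Function.comp_apply, LinearEquiv.apply_symm_apply, totPhi_apply]
    refine Finset.sum_congr rfl fun i _ => ?_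
    have e : E.symm w i = ∑ j, z i j ⊗ₜ[k] w i j := by
      change (TensorProduct.equivFinsuppOfBasisLeft (z i)).symm
        ((Finsupp.linearEquivFunOnFinite k (W i) (Z i)).symm (w i)) = _
      rw [TensorProduct.equivFinsuppOfBasisLeft_symm_apply, Finsupp.sum_fintype]
      · rfl
      · intro j
        exact TensorProduct.tmul_zero _ _
    rw [e, map_sum]
    exact Finset.sum_congr rfl fun j _ => TensorProduct.lift.tmul _ _
  rw [h]
  exact hb.comp E.bijective

theorem kunneth_abs (φ : ∀ i, V i →ₗ[k] W i →ₗ[k] U) {Z : I → Type} [∀ i, Fintype (Z i)]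
    (z : ∀ i, Basis (Z i) k (V i))
    (hb : Function.Bijective (fun w : ∀ i, Z i → W i => ∑ i, ∑ j, φ i (z i j) (w i j)))
    {K K' : I → Type} (x : ∀ i, Basis (K i) k (V i)) (y : ∀ i, Basis (K' i) k (W i)) :
    ∃ b : Basis (Σ i, K i × K' i) k U, ∀ v, b v = φ v.1 (x v.1 v.2.1) (y v.1 v.2.2) := by
  let Φ := LinearEquiv.ofBijective (totPhi φ) (totPhi_bij φ z hb)
  refine ⟨(Pi.basis fun i => (x i).tensorProduct (y i)).map Φ, ?_⟩
  rintro ⟨i, k', l⟩
  rw [Basis.map_apply, Pi.basis_apply]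
  change totPhi φ _ = _
  rw [totPhi_apply, Finset.sum_eq_single i]
  · rw [Pi.single_eq_same, Basis.tensorProduct_apply]
    exact TensorProduct.lift.tmul _ _
  · intro i' _ hne
    rw [Pi.single_eq_of_ne hne, map_zero]
  · intro h
    exact absurd (Finset.mem_univ i) h

end abs

end Pool.Agent.Work.MP_701abf_gt.Cob
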