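import Pool.Agent.Work.MP_701abf_gt.Cob.OpsDefs
import Pool.Agent.Work.MP_701abf_gt.Cob.Bridge
import Pool.Agent.Work.MP_701abf_gt.Stab.SqOne

/-!
Products, the class `h_0`, the operation `Sq^1` and the iterates of `Sq^0` on the cohomology of the
Steenrod algebra.
-/

open MvPolynomial
open Pool.Agent.Work.MP_701abf_gt.Stab

namespace Pool.Agent.Work.MP_701abf_gt.Cob

noncomputable section

/-! ### Products -/

lemma th_jux (i j : ℕ) (p : Cobar i) (q : Cobar j) :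
    th (i + j) (jux i j p q) = th j q * sh j (th i p) := by
  have h1 : (th (i + j)).comp (rename (fun v : Fin i × ℕ => (Fin.castAdd j v.1, v.2))) =
      (sh j).comp (th i) := by
    refine algHom_ext fun v => ?_
    rw [AlgHom.comp_apply, AlgHom.comp_apply, rename_X, th_X, th_X, sh_inl]
    simp only [Fin.val_castAdd]
    have := v.1.2
    congr 3
    omega
  have h2 : (th (i + j)).comp (rename (fun v : Fin j × ℕ => (Fin.natAdd i v.1, v.2))) =
      th j := by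
    refine algHom_ext fun v => ?_
    rw [AlgHom.comp_apply, rename_X, th_X, th_X]
    simp only [Fin.val_natAdd]
    have := v.1.2
    congr 3
    omega
  unfold jux
  rw [map_mul, mul_comm]
  congr 1
  · exact congrArg (fun φ => φ q) h2
  · exact congrArg (fun φ => φ p) h1

lemma jux_add_left {i j : ℕ} (p p' : Cobar i) (q : Cobar j) :
    jux i j (p + p') q = jux i j p q + jux i j p' q := by
  unfold jux; rw [map_add, add_mul]

lemma jux_add_right {i j : ℕ} (p : Cobar i) (q q' : Cobar j) :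
    jux i j p (q + q') = jux i j p q + jux i j p q' := by
  unfold jux; rw [map_add, mul_add]

lemma jux_smul_left {i j : ℕ} (c : ZMod 2) (p : Cobar i) (q : Cobar j) :
    jux i j (c • p) q = c • jux i j p q := by
  unfold jux; rw [map_smul, smul_mul_assoc]

lemma jux_smul_right {i j : ℕ} (c : ZMod 2) (p : Cobar i) (q : Cobar j) :
    jux i j p (c • q) = c • jux i j p q := by
  unfold jux; rw [map_smul, mul_smul_comm]

lemma wh_cup {N M : ℤ} {F G : RR Empty} (hF : WH wE F (0, N)) (hG : WH wE G (0, M)) (a : ℕ) :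
    WH wE (G * sh a F) (0, N + M) := by
  have h := IsWeightedHomogeneous.mul hG ((sh_gr (fun _ : Empty => (1, 0)) (fun _ => 0) a).map hF)
  have e : (((0, M) : (ℤ × ℤ) × ℤ) + id (0, N)) = (0, N + M) := by
    rw [id, Prod.mk_add_mk, add_zero, add_comm]
  rw [e] at h
  exact h

lemma lev_cup {i j : ℕ} {F G : RR Empty} (hF : F ∈ lev Empty (i + 1)) (hG : G ∈ lev Empty (j + 1)) :
    G * sh j F ∈ lev Empty (i + j + 1) := by
  rw [mem_lev_succ, map_mul, show i + j = j + i by ring, sh_lev hF,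
    mem_lev_succ.1 (lev_mono (by omega) hG)]

lemma jux_Zc {i j a b : ℕ} {p : Cobar i} {q : Cobar j} (hp : p ∈ Zc i a) (hq : q ∈ Zc j b) :
    jux i j p q ∈ Zc (i + j) (a + b) := by
  obtain ⟨h1, h2, h3⟩ := th_Zc hp
  obtain ⟨h4, h5, h6⟩ := th_Zc hq
  have e : jux i j p q = ps (i + j) (th j q * sh j (th i p)) := by
    apply th_inj
    rw [th_jux, th_surj (lev_cup h1 h4)]
  rw [e]
  refine ps_Zc (lev_cup h1 h4) (by push_cast; exact wh_cup h2 h5 j) ?_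
  rw [show i + j + 1 = j + i + 1 by ring, dR_cup (fun _ => 0) h4, h3, map_zero, mul_zero]
  have h7 : dR (fun _ : Empty => 0) (j + 1) (th j q) = 0 := h6
  rw [h7, zero_mul, add_zero]

lemma jux_Bc_left {i j a b : ℕ} {p : Cobar i} {q : Cobar j} (hp : p ∈ Bc i a) (hq : q ∈ Zc j b) :
    jux i j p q ∈ Bc (i + j) (a + b) := by
  obtain ⟨G, hG, hw, e⟩ := mem_Bc.1 hp
  obtain ⟨h4, h5, h6⟩ := th_Zc hq
  have h7 : dR (fun _ : Empty => 0) (j + 1) (th j q) = 0 := h6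
  rw [mem_Bc, th_jux, ← e]
  cases i with
  | zero =>
    have h0 : G = 0 := hG
    refine ⟨0, Submodule.zero_mem _, isWeightedHomogeneous_zero _ _ _, ?_⟩
    rw [h0, map_zero, map_zero, map_zero, mul_zero]
  | succ i =>
    refine ⟨th j q * sh j G, ?_, by push_cast; exact wh_cup hw h5 j, ?_⟩
    · rw [show i + 1 + j = i + j + 1 by ring]
      exact lev_cup hG h4
    · rw [show i + 1 + j = j + i + 1 by ring, dR_cup (fun _ => 0) h4, h7, zero_mul, zero_add]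

lemma jux_Bc_right {i j a b : ℕ} {p : Cobar i} {q : Cobar j} (hp : p ∈ Zc i a) (hq : q ∈ Bc j b) :
    jux i j p q ∈ Bc (i + j) (a + b) := by
  obtain ⟨G, hG, hw, e⟩ := mem_Bc.1 hq
  obtain ⟨h4, h5, h6⟩ := th_Zc hp
  rw [mem_Bc, th_jux, ← e]
  cases j with
  | zero =>
    have h0 : G = 0 := hG
    refine ⟨0, Submodule.zero_mem _, isWeightedHomogeneous_zero _ _ _, ?_⟩
    rw [h0, map_zero, map_zero, zero_mul]
  | succ j =>
    refine ⟨G * sh j (th i p), ?_, by push_cast; exact wh_cup h5 hw j, ?_⟩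
    · exact lev_cup h4 hG
    · have h7 := dR_cup (ι := Empty) (fun _ => 0) (a := j) (b := i) hG (th i p)
      rw [h6, map_zero, mul_zero, add_zero] at h7
      rw [show i + (j + 1) = j + i + 1 by ring]
      exact h7

/-- The product on cocycles. -/
def mulZ (i a j b : ℕ) : Zc i a →ₗ[ZMod 2] Zc j b →ₗ[ZMod 2] Ext (i + j) (a + b) :=
  LinearMap.mk₂ (ZMod 2) (fun x y => cls ⟨jux i j x y, jux_Zc x.2 y.2⟩)
    (fun x x' y => by
      have : (⟨jux i j ((x + x' : Zc i a) : Cobar i) y, jux_Zc (x + x').2 y.2⟩ :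
          Zc (i + j) (a + b)) = ⟨jux i j x y, jux_Zc x.2 y.2⟩ + ⟨jux i j x' y, jux_Zc x'.2 y.2⟩ :=
        Subtype.ext (jux_add_left _ _ _)
      rw [this]; rfl)
    (fun c x y => by
      have : (⟨jux i j ((c • x : Zc i a) : Cobar i) y, jux_Zc (c • x).2 y.2⟩ :
          Zc (i + j) (a + b)) = c • ⟨jux i j x y, jux_Zc x.2 y.2⟩ :=
        Subtype.ext (jux_smul_left _ _ _)
      rw [this]; rfl)
    (fun x y y' => by
      have : (⟨jux i j x ((y + y' : Zc j b) : Cobar j), jux_Zc x.2 (y + y').2⟩ :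
          Zc (i + j) (a + b)) = ⟨jux i j x y, jux_Zc x.2 y.2⟩ + ⟨jux i j x y', jux_Zc x.2 y'.2⟩ :=
        Subtype.ext (jux_add_right _ _ _)
      rw [this]; rfl)
    (fun c x y => by
      have : (⟨jux i j x ((c • y : Zc j b) : Cobar j), jux_Zc x.2 (c • y).2⟩ :
          Zc (i + j) (a + b)) = c • ⟨jux i j x y, jux_Zc x.2 y.2⟩ :=
        Subtype.ext (jux_smul_right _ _ _)
      rw [this]; rfl)

/-- The product `Ext^{i,a} × Ext^{j,b} → Ext^{i+j,a+b}`, `([p], [q]) ↦ [p | q]`. -/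
def mul (i a j b : ℕ) : Ext i a →ₗ[ZMod 2] Ext j b →ₗ[ZMod 2] Ext (i + j) (a + b) :=
  Submodule.liftQ _
    (LinearMap.flip (Submodule.liftQ _ (LinearMap.flip (mulZ i a j b)) (fun y hy => by
      rw [LinearMap.mem_ker]
      ext x
      change cls _ = 0
      rw [cls_zero]
      exact jux_Bc_right x.2 hy)))
    (fun x hx => by
      rw [LinearMap.mem_ker]
      refine LinearMap.ext fun y => ?_
      obtain ⟨y, rfl⟩ := cls_surj y
      change cls _ = 0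
      rw [cls_zero]
      exact jux_Bc_left hx y.2)

lemma mul_cls {i a j b : ℕ} (x : Zc i a) (y : Zc j b) :
    mul i a j b (cls x) (cls y) = cls ⟨jux i j x y, jux_Zc x.2 y.2⟩ := rfl

/-! ### The class `h_0` -/

lemma xi_Zc : (xi (0 : Fin 1) 1 : Cobar 1) ∈ Zc 1 1 := by
  refine ⟨isWeightedHomogeneous_X _ _ _, ?_⟩
  change cobarD 1 (X (0, 0)) = 0
  apply th_inj
  rw [th_d, th_X, map_zero]
  exact h0c_d

/-- The class `h_0 = [ξ_1]` in `Ext^{1,1}`. -/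
def h0 : Ext 1 1 := cls ⟨xi 0 1, xi_Zc⟩

/-! ### The iterates of `Sq^0` -/

/-- Iterated squaring of cochains. -/
def frMap (s j : ℕ) : Cobar s →ₗ[ZMod 2] Cobar s where
  toFun p := p ^ 2 ^ j
  map_add' p q := by
    induction j with
    | zero => simp
    | succ j ih =>
      have h := (sqMap s).map_add (p ^ 2 ^ j) (q ^ 2 ^ j)
      simp only [sqMap_apply] at h
      rw [pow_succ, pow_mul, ih, h, ← pow_mul, ← pow_mul]
  map_smul' c p := by
    rw [RingHom.id_apply, smul_pow]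
    congr 1
    have : c = 0 ∨ c = 1 := by revert c; decide
    rcases this with rfl | rfl
    · rw [zero_pow (by positivity)]
    · rw [one_pow]

lemma frMap_apply (s j : ℕ) (p : Cobar s) : frMap s j p = p ^ 2 ^ j := rfl

lemma fr_Zc {s t j : ℕ} {p : Cobar s} (h : p ∈ Zc s t) : p ^ 2 ^ j ∈ Zc s (2 ^ j * t) := by
  induction j with
  | zero => rw [pow_zero, pow_one, one_mul]; exact h
  | succ j ih =>
    have := sqMap_Zc ih
    rw [sqMap_apply, ← pow_mul, ← pow_succ] at this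
    rw [show 2 ^ (j + 1) * t = 2 * (2 ^ j * t) by ring]
    exact this

lemma fr_Bc {s t j : ℕ} {p : Cobar s} (h : p ∈ Bc s t) : p ^ 2 ^ j ∈ Bc s (2 ^ j * t) := by
  induction j with
  | zero => rw [pow_zero, pow_one, one_mul]; exact h
  | succ j ih =>
    have := sqMap_Bc ih
    rw [sqMap_apply, ← pow_mul, ← pow_succ] at this
    rw [show 2 ^ (j + 1) * t = 2 * (2 ^ j * t) by ring]
    exact this

/-- The `j`-fold iterate `(Sq^0)^j : Ext^{s,t} → Ext^{s,2^j t}`, `[p] ↦ [p ^ (2 ^ j)]`. -/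
def Fr (s t j : ℕ) : Ext s t →ₗ[ZMod 2] Ext s (2 ^ j * t) :=
  Submodule.mapQ _ _ ((frMap s j).restrict fun _ h => fr_Zc h) fun _ h => fr_Bc h

lemma Fr_cls {s t j : ℕ} (x : Zc s t) : Fr s t j (cls x) = cls ⟨(x : Cobar s) ^ 2 ^ j, fr_Zc x.2⟩ :=
  rfl

/-! ### The operation `Sq^1` -/

lemma pr_reflect {S : Type*} [CommRing S] (a : ℕ → S) (m : ℕ) :
    (∑ j ∈ Finset.range (m + 1), ∑ i ∈ Finset.range j,
      if i % 2 = j % 2 then a (m - i) * a (m - j) else 0) = pr a (m + 1) := by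
  unfold pr
  rw [Finset.sum_sigma', Finset.sum_sigma']
  refine Finset.sum_nbij' (fun x => ⟨m - x.2, m - x.1⟩) (fun x => ⟨m - x.2, m - x.1⟩) ?_ ?_ ?_ ?_ ?_
  · rintro ⟨j, i⟩ h
    simp only [Finset.mem_sigma, Finset.mem_range] at h ⊢
    omega
  · rintro ⟨j, i⟩ h
    simp only [Finset.mem_sigma, Finset.mem_range] at h ⊢
    omega
  · rintro ⟨j, i⟩ h
    simp only [Finset.mem_sigma, Finset.mem_range] at h
    have h1 : m - (m - j) = j := by omega
    have h2 : m - (m - i) = i := by omega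
    simp only [h1, h2]
  · rintro ⟨j, i⟩ h
    simp only [Finset.mem_sigma, Finset.mem_range] at h
    have h1 : m - (m - j) = j := by omega
    have h2 : m - (m - i) = i := by omega
    simp only [h1, h2]
  · rintro ⟨j, i⟩ h
    simp only [Finset.mem_sigma, Finset.mem_range] at h
    simp only
    by_cases hij : i % 2 = j % 2
    · rw [if_pos hij, if_pos (by omega), mul_comm]
    · rw [if_neg hij, if_neg (by omega)]

lemma th_sqOne (s : ℕ) (p : Cobar s) :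
    th (s + 1) (sqOne s p) = sq1 (fun _ => 0) (s + 1) (th s p) := by
  unfold sqOne sq1
  rw [← pr_reflect (fun j => face (fun _ => 0) j (th s p)) (s + 1), map_sum]
  refine Finset.sum_congr rfl fun j hj => ?_
  rw [map_sum]
  refine Finset.sum_congr rfl fun i hi => ?_
  have h1 := Finset.mem_range.1 hj
  have h2 := Finset.mem_range.1 hi
  split_ifs
  · rw [map_mul, th_coface (by omega), th_coface (by omega)]
  · exact map_zero _

lemma sqOne_Zc {s t : ℕ} {p : Cobar s} (h : p ∈ Zc s t) : sqOne s p ∈ Zc (s + 1) (2 * t) := by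
  obtain ⟨h1, h2, h3⟩ := th_Zc h
  obtain ⟨h4, h5⟩ := sq1_mem h1 h2 h3
  have e : sqOne s p = ps (s + 1) (sq1 (fun _ => 0) (s + 1) (th s p)) := by
    apply th_inj
    rw [th_sqOne, th_surj h4]
  rw [e]
  exact ps_Zc h4 (by push_cast; exact h5) (sq1_d _ _ h3)

lemma sqOne_add {s t : ℕ} {p q : Cobar s} (hp : p ∈ Zc s t) (hq : q ∈ Zc s t) :
    sqOne s (p + q) - (sqOne s p + sqOne s q) ∈ Bc (s + 1) (2 * t) := by
  obtain ⟨h1, h2, h3⟩ := th_Zc hp
  obtain ⟨h4, h5, h6⟩ := th_Zc hq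
  rw [mem_Bc]
  refine ⟨th s p * th s q, mul_lev h1 h4, by push_cast; exact mul_wh2 h2 h5, ?_⟩
  have h7 := sq1_add (fun _ => 0) (s + 1) h3 h6
  rw [map_sub, map_add, th_sqOne, th_sqOne, th_sqOne, map_add, ← h7, sub_eq2, ← add_assoc,
    add_self2, zero_add]

lemma sqOne_Bc {s t : ℕ} {p : Cobar s} (h : p ∈ Bc s t) : sqOne s p ∈ Bc (s + 1) (2 * t) := by
  obtain ⟨G, hG, hw, e⟩ := mem_Bc.1 h
  obtain ⟨H, hH, hHw, e2⟩ := sq1_bd' hG hw
  rw [mem_Bc]
  refine ⟨H, hH, by push_cast; exact hHw, ?_⟩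
  rw [e2, th_sqOne, e]

/-- `Sq^1` on cocycles. -/
def sqOneZ (s t : ℕ) : Zc s t →+ Ext (s + 1) (2 * t) where
  toFun x := cls ⟨sqOne s x, sqOne_Zc x.2⟩
  map_zero' := (cls_zero _).2 (sqOne_Bc (Submodule.zero_mem _))
  map_add' x y := by
    have h : cls (⟨sqOne s (x + y : Zc s t), sqOne_Zc (x + y).2⟩ : Zc (s + 1) (2 * t)) -
        (cls ⟨sqOne s x, sqOne_Zc x.2⟩ + cls ⟨sqOne s y, sqOne_Zc y.2⟩) =
        cls (⟨sqOne s (x + y : Zc s t), sqOne_Zc (x + y).2⟩ -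
          (⟨sqOne s x, sqOne_Zc x.2⟩ + ⟨sqOne s y, sqOne_Zc y.2⟩)) := rfl
    rw [← sub_eq_zero, h, cls_zero]
    exact sqOne_add x.2 y.2

/-- The operation `Sq^1 : Ext^{s,t} → Ext^{s+1,2t}`, `[p] ↦ [sqOne p]`. -/
def Sq1 (s t : ℕ) : Ext s t →ₗ[ZMod 2] Ext (s + 1) (2 * t) :=
  Submodule.liftQ _ ((sqOneZ s t).toZModLinearMap 2) fun x hx => by
    rw [LinearMap.mem_ker]
    exact (cls_zero _).2 (sqOne_Bc hx)

lemma Sq1_cls {s t : ℕ} (x : Zc s t) : Sq1 s t (cls x) = cls ⟨sqOne s x, sqOne_Zc x.2⟩ := rfl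

lemma sqOne_pow (s j : ℕ) (p : Cobar s) : sqOne s (p ^ 2 ^ j) = sqOne s p ^ 2 ^ j := by
  have h : ∀ (T : Finset ℕ) (f : ℕ → Cobar (s + 1)),
      (∑ i ∈ T, f i) ^ 2 ^ j = ∑ i ∈ T, f i ^ 2 ^ j := by
    intro T f
    exact map_sum (frMap (s + 1) j) f T
  unfold sqOne
  rw [h]
  refine Finset.sum_congr rfl fun j' _ => ?_
  rw [h]
  refine Finset.sum_congr rfl fun i _ => ?_
  split_ifs
  · rw [map_pow, map_pow, mul_pow]
  · rw [zero_pow (by positivity)]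

/-! ### Regularity of `h_0` and injectivity of the iterates of `Sq^0` -/

/-- Iterates of `Sq^0` are injective in highly divisible degrees. -/
theorem Fr_injective (s : ℕ) : ∃ J : ℕ, ∀ t : ℕ, 2 ^ J ∣ t → ∀ j, ∀ p : Cobar s, p ∈ Hom s t →
    p ^ 2 ^ j ∈ Bc s (2 ^ j * t) → p ∈ Bc s t := by
  obtain ⟨J, hJ⟩ := stability s
  refine ⟨J, fun t ht j => ?_⟩
  induction j with
  | zero =>
    intro p hp h
    rw [pow_zero, pow_one, one_mul] at h
    exact h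
  | succ j ih =>
    intro p hp h
    refine ih p hp ?_
    obtain ⟨G, hG, hw, e⟩ := mem_Bc.1 h
    have hp2 : p ^ 2 ^ j ∈ Hom s (2 ^ j * t) := by
      have := IsWeightedHomogeneous.pow hp (2 ^ j)
      rwa [smul_eq_mul] at this
    rw [mem_Bc]
    have hd : (2 : ℤ) ^ J ∣ ((2 ^ j * t : ℕ) : ℤ) := by
      have : 2 ^ J ∣ 2 ^ j * t := Dvd.dvd.mul_left ht _
      exact_mod_cast this
    have hG2 : WH wE G (0, 2 * ((2 ^ j * t : ℕ) : ℤ)) := by
      have e1 : ((2 ^ (j + 1) * t : ℕ) : ℤ) = 2 * ((2 ^ j * t : ℕ) : ℤ) := by push_cast; ring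
      rw [e1] at hw
      exact hw
    obtain ⟨z, hz, hzw, ez⟩ := (hJ _ hd).2 (th s (p ^ 2 ^ j)) (th_lev s _) (th_Hom hp2) G hG hG2
      (by rw [e, ← map_pow, ← pow_mul, ← pow_succ])
    exact ⟨z, hz, hzw, ez⟩

/-- Multiplication by `h_0` is injective in highly divisible positive degrees. -/
theorem h0_injective (s : ℕ) : ∃ J : ℕ, ∀ t : ℕ, 0 < t → 2 ^ J ∣ t → ∀ x : Ext s t,
    mul s t 1 1 x h0 = 0 → x = 0 := by
  obtain ⟨J, hJ⟩ := h0_reg s
  refine ⟨J, fun t ht hd x hx => ?_⟩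
  obtain ⟨z, rfl⟩ := cls_surj x
  have h1 : mul s t 1 1 (cls z) h0 = cls ⟨jux s 1 z (xi 0 1), jux_Zc z.2 xi_Zc⟩ := rfl
  rw [h1, cls_zero, mem_Bc] at hx
  obtain ⟨F, hF, hFw, e⟩ := hx
  obtain ⟨h2, h3, h4⟩ := th_Zc z.2
  rw [cls_zero, mem_Bc]
  have hd' : (2 : ℤ) ^ J ∣ (t : ℤ) := by exact_mod_cast hd
  obtain ⟨G, hG, hGw, e2⟩ := hJ t (by exact_mod_cast ht) hd' (th s z) h2 h3 h4
    ⟨F, hF, by rw [add_comm]; exact_mod_cast hFw, by
      rw [e, th_jux]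
      change th 1 (X (0, 0)) * _ = _
      rw [th_X]
      rfl⟩
  exact ⟨G, hG, hGw, e2⟩

/-- For `2 ^ J ∣ t` a family with `Sq^1 x ≠ 0` has `h_0 Sq^1 x_j ≠ 0` for all `j`. -/
theorem h0_Sq1 (s : ℕ) : ∃ J : ℕ, ∀ t : ℕ, 0 < t → 2 ^ J ∣ t → ∀ x : Ext s t, Sq1 s t x ≠ 0 →
    ∀ j, mul (s + 1) (2 * (2 ^ j * t)) 1 1 (Sq1 s (2 ^ j * t) (Fr s t j x)) h0 ≠ 0 := by
  obtain ⟨J1, h1⟩ := h0_injective (s + 1)
  obtain ⟨J2, h2⟩ := Fr_injective (s + 1)
  refine ⟨J1 + J2, fun t ht hd x hx j h => hx ?_⟩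
  have hd1 : 2 ^ J1 ∣ t := (pow_dvd_pow 2 (Nat.le_add_right _ _)).trans hd
  have hd2 : 2 ^ J2 ∣ t := (pow_dvd_pow 2 (Nat.le_add_left _ _)).trans hd
  have h3 := h1 _ (by positivity) (Dvd.dvd.mul_left (Dvd.dvd.mul_left hd1 _) _) _ h
  obtain ⟨z, rfl⟩ := cls_surj x
  rw [Fr_cls, Sq1_cls, cls_zero] at h3
  rw [Sq1_cls, cls_zero]
  refine h2 (2 * t) (Dvd.dvd.mul_left hd2 _) j _ (sqOne_Zc z.2).1 ?_
  change sqOne s ((z : Cobar s) ^ 2 ^ j) ∈ _ at h3
  rw [sqOne_pow] at h3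
  rw [show 2 ^ j * (2 * t) = 2 * (2 ^ j * t) by ring]
  exact h3

/-- The same in terms of cocycles. -/
theorem h0_sqOne (s : ℕ) : ∃ J : ℕ, ∀ t : ℕ, 0 < t → 2 ^ J ∣ t → ∀ p ∈ Zc s t,
    sqOne s p ∉ Bc (s + 1) (2 * t) →
    ∀ j, jux (s + 1) 1 (sqOne s (p ^ 2 ^ j)) (xi 0 1) ∉ Bc (s + 1 + 1) (2 * (2 ^ j * t) + 1) := by
  obtain ⟨J, hJ⟩ := h0_Sq1 s
  refine ⟨J, fun t ht hd p hp h j hj => ?_⟩
  refine hJ t ht hd (cls ⟨p, hp⟩) ?_ j ?_
  · rw [Sq1_cls, Ne, cls_zero]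
    exact h
  · rw [Fr_cls, Sq1_cls]
    exact (cls_zero _).2 hj

end

end Pool.Agent.Work.MP_701abf_gt.Cob
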