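import Pool.Agent.Work.MP_701abf_gt.Cob.GenDefs
import Pool.Agent.Work.MP_701abf_gt.Cob.Ops
import Pool.Agent.Work.MP_701abf_gt.Cob.KunAbs

/-!
The asymptotic Kuenneth formula for the cohomology of the Steenrod algebra.
-/

open MvPolynomial Module
open Pool.Agent.Work.MP_701abf_gt.Stab

namespace Pool.Agent.Work.MP_701abf_gt.Cob

noncomputable section

/-! ### Casts -/

/-- Change of the number of tensor factors. -/
def castC {a b : ℕ} (h : a = b) : Cobar a →ₐ[ZMod 2] Cobar b :=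
  rename (fun v => (Fin.cast h v.1, v.2))

lemma castC_rfl {a : ℕ} (p : Cobar a) : castC rfl p = p := rename_id_apply p

lemma castC_Zc {a b t : ℕ} (h : a = b) {p : Cobar a} (hp : p ∈ Zc a t) : castC h p ∈ Zc b t := by
  subst h
  rw [castC_rfl]
  exact hp

lemma th_castC {a b : ℕ} (h : a = b) (p : Cobar a) : th b (castC h p) = th a p := by
  subst h
  rw [castC_rfl]

/-- Change of the cohomological degree. -/
def castE {a b : ℕ} (h : a = b) (t : ℕ) : Ext a t →ₗ[ZMod 2] Ext b t := h ▸ LinearMap.id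

lemma castE_cls {a b : ℕ} (h : a = b) {t : ℕ} (z : Zc a t) :
    castE h t (cls z) = cls ⟨castC h z, castC_Zc h z.2⟩ := by
  subst h
  change cls z = _
  congr 1
  exact Subtype.ext (castC_rfl _).symm

lemma th_juxF (s : ℕ) (i : Fin (s + 1)) (p : Cobar i) (q : Cobar (s - i)) :
    th s (juxF s i p q) = th (s - i) q * sh (s - i) (th i p) := by
  have h : juxF s i p q = castC (Nat.add_sub_cancel' (Nat.le_of_lt_succ i.2))
      (jux i (s - i) p q) := rfl
  rw [h, th_castC, th_jux]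

lemma juxF_Zc {s N M : ℕ} {i : Fin (s + 1)} {p : Cobar i} {q : Cobar (s - i)} (hp : p ∈ Zc i N)
    (hq : q ∈ Zc (s - i) M) : juxF s i p q ∈ Zc s (N + M) :=
  castC_Zc (Nat.add_sub_cancel' (Nat.le_of_lt_succ i.2)) (jux_Zc hp hq)

/-- The product with values in `Ext^s`. -/
def mulF (s N M : ℕ) (i : Fin (s + 1)) :
    Ext i N →ₗ[ZMod 2] Ext (s - i) M →ₗ[ZMod 2] Ext s (N + M) :=
  (mul i N (s - i) M).compr₂ (castE (Nat.add_sub_cancel' (Nat.le_of_lt_succ i.2)) (N + M))

lemma mulF_cls {s N M : ℕ} {i : Fin (s + 1)} (x : Zc i N) (y : Zc (s - i) M) :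
    mulF s N M i (cls x) (cls y) = cls ⟨juxF s i x y, juxF_Zc x.2 y.2⟩ := by
  unfold mulF
  rw [LinearMap.compr₂_apply, mul_cls, castE_cls]
  rfl

/-! ### Bases -/

/-- The class map. -/
def clsL (s t : ℕ) : Zc s t →ₗ[ZMod 2] Ext s t := Submodule.mkQ _

lemma clsL_apply {s t : ℕ} (z : Zc s t) : clsL s t z = cls z := rfl

lemma lc_mem {s t : ℕ} {K : Type} {x : K → Cobar s} (hx : ∀ k, x k ∈ Zc s t) (c : K →₀ ZMod 2) :
    Finsupp.linearCombination (ZMod 2) x c ∈ Zc s t := by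
  rw [Finsupp.linearCombination_apply]
  exact Submodule.finsuppSum_mem _ _ _ _ fun k _ => Submodule.smul_mem _ _ (hx k)

lemma cls_lc {s t : ℕ} {K : Type} {x : K → Cobar s} (hx : ∀ k, x k ∈ Zc s t) (c : K →₀ ZMod 2) :
    cls ⟨Finsupp.linearCombination (ZMod 2) x c, lc_mem hx c⟩ =
      Finsupp.linearCombination (ZMod 2) (fun k => cls (⟨x k, hx k⟩ : Zc s t)) c := by
  have h1 : (⟨Finsupp.linearCombination (ZMod 2) x c, lc_mem hx c⟩ : Zc s t) =
      Finsupp.linearCombination (ZMod 2) (fun k => (⟨x k, hx k⟩ : Zc s t)) c := by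
    apply Subtype.ext
    change _ = (Zc s t).subtype _
    rw [Finsupp.apply_linearCombination]
    rfl
  rw [h1, ← clsL_apply, Finsupp.apply_linearCombination]
  rfl

lemma isBasis_of_basis {s t : ℕ} {K : Type} {x : K → Cobar s} (hx : ∀ k, x k ∈ Zc s t)
    (b : Basis K (ZMod 2) (Ext s t)) (hb : ∀ k, b k = cls ⟨x k, hx k⟩) : IsBasis s t x := by
  have e : (fun k => cls (⟨x k, hx k⟩ : Zc s t)) = b := funext fun k => (hb k).symm
  refine ⟨hx, fun c hc => ?_, fun p hp => ?_⟩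
  · have h1 := (cls_zero (⟨Finsupp.linearCombination (ZMod 2) x c, lc_mem hx c⟩ : Zc s t)).2 hc
    rw [cls_lc hx, e] at h1
    have h2 := b.linearIndependent
    rw [linearIndependent_iff] at h2
    exact h2 c h1
  · refine ⟨b.repr (cls ⟨p, hp⟩), ?_⟩
    have h1 : cls (⟨p, hp⟩ - ⟨Finsupp.linearCombination (ZMod 2) x (b.repr (cls ⟨p, hp⟩)),
        lc_mem hx _⟩ : Zc s t) = 0 := by
      have h2 : cls (⟨p, hp⟩ - ⟨Finsupp.linearCombination (ZMod 2) x (b.repr (cls ⟨p, hp⟩)),
        lc_mem hx _⟩ : Zc s t) = cls ⟨p, hp⟩ - cls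
          ⟨Finsupp.linearCombination (ZMod 2) x (b.repr (cls ⟨p, hp⟩)), lc_mem hx _⟩ := rfl
      rw [h2, cls_lc hx, e, b.linearCombination_repr, sub_self]
    exact (cls_zero _).1 h1

lemma basis_of_isBasis {s t : ℕ} {K : Type} {x : K → Cobar s} (h : IsBasis s t x) :
    ∃ b : Basis K (ZMod 2) (Ext s t), ∀ k, b k = cls ⟨x k, h.1 k⟩ := by
  have hli : LinearIndependent (ZMod 2) (fun k => cls (⟨x k, h.1 k⟩ : Zc s t)) := by
    rw [linearIndependent_iff]
    intro c hc
    rw [← cls_lc h.1, cls_zero] at hc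
    exact h.2.1 c hc
  have hsp : ⊤ ≤ Submodule.span (ZMod 2) (Set.range fun k => cls (⟨x k, h.1 k⟩ : Zc s t)) := by
    intro u _
    obtain ⟨z, rfl⟩ := cls_surj u
    obtain ⟨c, hc⟩ := h.2.2 z z.2
    have h1 : cls (z - ⟨Finsupp.linearCombination (ZMod 2) x c, lc_mem h.1 c⟩) = 0 :=
      (cls_zero _).2 hc
    have h2 : cls (z - ⟨Finsupp.linearCombination (ZMod 2) x c, lc_mem h.1 c⟩) =
      cls z - cls ⟨Finsupp.linearCombination (ZMod 2) x c, lc_mem h.1 c⟩ := rfl
    rw [h2, cls_lc h.1, sub_eq_zero] at h1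
    rw [h1]
    exact Finsupp.mem_span_range_iff_exists_finsupp.2 ⟨c, rfl⟩
  exact ⟨Basis.mk hli hsp, fun k => Basis.mk_apply hli hsp k⟩

/-! ### The family -/

section fam

variable {Z : Type} [Fintype Z] {N : ℕ} (f : Fam Z (N : ℤ))

omit [Fintype Z] in
lemma fz_mem {i : ℕ} {j : Z} (h : f.β j + 1 = i) :
    f.z j ∈ lev Empty (i + 1) ∧ dE (i + 1) (f.z j) = 0 := by
  subst h
  exact ⟨f.lev j, f.cl j⟩

/-- The cocycle of the cobar complex given by a member of the family. -/
def zc (i : ℕ) (j : {j : Z // f.β j + 1 = i}) : Zc i N :=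
  ⟨ps i (f.z j.1), ps_Zc (fz_mem f j.2).1 (f.wh j.1) (fz_mem f j.2).2⟩

omit [Fintype Z] in
lemma th_zc (i : ℕ) (j : {j : Z // f.β j + 1 = i}) : th i (zc f i j) = f.z j.1 :=
  th_surj (fz_mem f j.2).1

lemma sum_sub {M : Type*} [AddCommMonoid M] (i : ℕ) (g : {j : Z // f.β j + 1 = i} → M) :
    ∑ j, g j = ∑ j : Z, if h : f.β j + 1 = i then g ⟨j, h⟩ else 0 := by
  rw [← Fintype.sum_subtype_add_sum_subtype (fun j => f.β j + 1 = i)]
  have h1 : ∀ j : {j : Z // f.β j + 1 = i},
      (if h : f.β j.1 + 1 = i then g ⟨j.1, h⟩ else 0) = g j := fun j => dif_pos j.2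
  have h2 : ∀ j : {j : Z // ¬ (f.β j + 1 = i)},
      (if h : f.β j.1 + 1 = i then g ⟨j.1, h⟩ else 0) = 0 := fun j => dif_neg j.2
  rw [Finset.sum_congr rfl fun j _ => h1 j, Finset.sum_congr rfl fun j _ => h2 j,
    Finset.sum_const_zero, add_zero]

lemma lc_fin {E K : Type*} [AddCommGroup E] [Module (ZMod 2) E] [Fintype K] (x : K → E)
    (c : K →₀ ZMod 2) : Finsupp.linearCombination (ZMod 2) x c = ∑ k, c k • x k := by
  rw [Finsupp.linearCombination_apply]
  exact Finsupp.sum_fintype _ _ fun _ => zero_smul _ _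

/-- The classes of the members of the family of filtration `i` are a basis. -/
lemma zc_basis {s : ℕ} (h0 : ∀ p' ≤ s, ExK f Empty (fun _ => 0) p' 0 0) {i : ℕ} (hi : i ≤ s) :
    IsBasis i N (fun j => (zc f i j : Cobar i)) := by
  refine ⟨fun j => (zc f i j).2, fun c hc => ?_, fun p hp => ?_⟩
  · obtain ⟨G, hG, hGw, e⟩ := mem_Bc.1 hc
    have e0 : dE i G = ∑ j, c j • f.z j.1 := by
      rw [e, lc_fin, map_sum]
      refine Finset.sum_congr rfl fun j _ => ?_
      rw [map_smul, th_zc]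
    rcases Nat.eq_zero_or_pos i with hi0 | hi0
    · ext j
      have := j.2
      omega
    obtain ⟨n, rfl⟩ : ∃ n, i = n + 1 := ⟨i - 1, by omega⟩
    set u : Z → RR Empty := fun j => if h : f.β j + 1 = n + 1 then C (c ⟨j, h⟩) else 0 with hu
    have hu1 : ∀ j, u j ∈ lev Empty (n + 1 - f.β j) := by
      intro j
      rw [hu]
      simp only
      split_ifs with h
      · rw [show n + 1 - f.β j = 1 by omega]
        exact C_lev le_rfl _
      · exact Submodule.zero_mem _
    have hu2 : ∀ j, WH wE (u j) (0, 0) := by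
      intro j
      rw [hu]
      simp only
      split_ifs with h
      · exact wh_C _
      · exact isWeightedHomogeneous_zero _ _ _
    have hu3 : ∀ j, dE (n + 1 - f.β j) (u j) = 0 := by
      intro j
      rw [hu]
      simp only
      split_ifs with h
      · rw [show n + 1 - f.β j = 1 by omega, dE_C]
        have : (((1 + 1 : ℕ) : ZMod 2)) = 0 := rfl
        rw [this, zero_mul, map_zero]
      · exact map_zero _
    obtain ⟨⟨H, v⟩, ⟨hH, hv⟩, e'⟩ := h0 n (by omega) (G, u)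
      ⟨⟨hG, by rw [zero_add]; exact hGw⟩, fun j => ⟨hu1 j, hu2 j⟩⟩ (by
        refine Prod.ext ?_ (funext fun j => hu3 j)
        change dE (n + 1) G + ∑ j, Stab.cup (f.z j) (n + 1 - f.β j) (u j) = 0
        rw [e0, sum_sub, ← Finset.sum_add_distrib]
        refine Finset.sum_eq_zero fun j _ => ?_
        rw [hu]
        simp only
        split_ifs with h
        · rw [show n + 1 - f.β j = 1 by omega, cup_const, add_self2]
        · rw [map_zero, zero_add])
    have e2 : ∀ j, dE (n - f.β j) (v j) = u j := fun j => congrFun (congrArg Prod.snd e') j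
    ext j
    obtain ⟨j, hj⟩ := j
    have h3 : v j ∈ lev Empty (n - f.β j) := (hv j).1
    rw [show n - f.β j = 0 by omega] at h3
    have h4 : v j = 0 := h3
    have h5 := e2 j
    rw [h4, map_zero, hu] at h5
    simp only [hj, dite_true] at h5
    exact (C_injective _ _) (by rw [← h5, Finsupp.zero_apply, map_zero])
  · obtain ⟨h1, h2, h3⟩ := th_Zc hp
    obtain ⟨G, hG, hGw, c, hc, e⟩ := span_fam f (h0 i hi) h1 h2 h3
    refine ⟨Finsupp.equivFunOnFinite.symm fun j => c j.1, mem_Bc.2 ⟨G, hG, hGw, ?_⟩⟩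
    have e0 : th i (Finsupp.linearCombination (ZMod 2) (fun j => (zc f i j : Cobar i))
        (Finsupp.equivFunOnFinite.symm fun j => c j.1)) = ∑ j, c j • f.z j := by
      rw [lc_fin, map_sum, sum_sub]
      refine Finset.sum_congr rfl fun j _ => ?_
      split_ifs with h
      · rw [map_smul, th_zc]
        rfl
      · by_cases hcj : c j = 0
        · rw [hcj, zero_smul]
        · exact absurd (hc j hcj) h
    rw [map_sub, e0, e, sub_eq2, add_assoc, add_self2, add_zero]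

/-- Reorganisation of double sums. -/
lemma sum_fin {E : Type*} [AddCommMonoid E] (s : ℕ)
    (F : ∀ i : Fin (s + 1), {j : Z // f.β j + 1 = (i : ℕ)} → E) :
    ∑ i, ∑ j, F i j =
      ∑ j : Z, if h : f.β j + 1 < s + 1 then F ⟨f.β j + 1, h⟩ ⟨j, rfl⟩ else 0 := by
  have h0 : ∀ i : Fin (s + 1), ∑ j, F i j =
      ∑ j : Z, if h : f.β j + 1 = (i : ℕ) then F i ⟨j, h⟩ else 0 := fun i => sum_sub f _ (F i)
  rw [Finset.sum_congr rfl fun i _ => h0 i, Finset.sum_comm]
  refine Finset.sum_congr rfl fun j _ => ?_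
  by_cases h : f.β j + 1 < s + 1
  · rw [dif_pos h, Finset.sum_eq_single (⟨f.β j + 1, h⟩ : Fin (s + 1))]
    · rw [dif_pos rfl]
    · intro i _ hne
      refine dif_neg fun h' => hne (Fin.ext h'.symm)
    · intro h'
      exact absurd (Finset.mem_univ _) h'
  · rw [dif_neg h]
    refine Finset.sum_eq_zero fun i _ => dif_neg fun h' => h ?_
    rw [h']
    exact i.2

/-- The sum of the products of the members of the family with given classes. -/
def Psi (s M : ℕ) (w : ∀ i : Fin (s + 1), {j : Z // f.β j + 1 = (i : ℕ)} → Ext (s - i) M) :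
    Ext s (N + M) :=
  ∑ i, ∑ j, mulF s N M i (cls (zc f i j)) (w i j)

/-- The same for cocycles. -/
def PsiC (s M : ℕ) (r : ∀ i : Fin (s + 1), {j : Z // f.β j + 1 = (i : ℕ)} → Zc (s - i) M) :
    Zc s (N + M) :=
  ∑ i, ∑ j, ⟨juxF s i (zc f i j) (r i j), juxF_Zc (zc f i j).2 (r i j).2⟩

lemma Psi_cls (s M : ℕ) (r : ∀ i : Fin (s + 1), {j : Z // f.β j + 1 = (i : ℕ)} → Zc (s - i) M) :
    Psi f s M (fun i j => cls (r i j)) = cls (PsiC f s M r) := by
  unfold Psi PsiC
  rw [← clsL_apply (∑ i, _), map_sum]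
  refine Finset.sum_congr rfl fun i _ => ?_
  rw [map_sum]
  exact Finset.sum_congr rfl fun j _ => mulF_cls _ _

lemma th_PsiC (s M : ℕ) (r : ∀ i : Fin (s + 1), {j : Z // f.β j + 1 = (i : ℕ)} → Zc (s - i) M) :
    th s (PsiC f s M r) = ∑ j : Z, Stab.cup (f.z j) (s - f.β j)
      (if h : f.β j + 1 < s + 1 then
        th (s - (f.β j + 1)) (r ⟨f.β j + 1, h⟩ ⟨j, rfl⟩ : Cobar (s - (f.β j + 1))) else 0) := by
  have h1 : ((PsiC f s M r : Zc s (N + M)) : Cobar s) =
      ∑ i, ∑ j, juxF s i (zc f i j) (r i j) := by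
    unfold PsiC
    change (Zc s (N + M)).subtype _ = _
    rw [map_sum]
    refine Finset.sum_congr rfl fun i _ => ?_
    rw [map_sum]
    rfl
  rw [h1, map_sum]
  have h2 : ∀ i : Fin (s + 1), th s (∑ j, juxF s i (zc f i j) (r i j)) =
      ∑ j, th (s - i) (r i j) * sh (s - i) (f.z j.1) := by
    intro i
    rw [map_sum]
    refine Finset.sum_congr rfl fun j _ => ?_
    rw [th_juxF, th_zc]
  rw [Finset.sum_congr rfl fun i _ => h2 i,
    sum_fin f s (fun i j => th (s - i) (r i j) * sh (s - i) (f.z j.1))]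
  refine Finset.sum_congr rfl fun j _ => ?_
  split_ifs with h
  · rw [cup_apply]
    rfl
  · rw [map_zero]

lemma Psi_inj {s M : ℕ} (hM : ∀ p' ≤ s, ExK f Empty (fun _ => 0) p' 0 M) :
    Function.Injective (Psi f s M) := by
  have key : ∀ w, Psi f s M w = 0 → w = 0 := by
    intro w hw
    have hr : ∀ (i : Fin (s + 1)) (j : {j : Z // f.β j + 1 = (i : ℕ)}),
        ∃ r : Zc (s - i) M, cls r = w i j := fun i j => cls_surj _
    choose r hr using hr
    have e : w = fun i j => cls (r i j) := by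
      funext i j
      exact (hr i j).symm
    rw [e, Psi_cls, cls_zero] at hw
    obtain ⟨G, hG, hGw, e1⟩ := mem_Bc.1 hw
    rw [th_PsiC] at e1
    rw [e]
    funext i j
    change cls (r i j) = 0
    rw [cls_zero]
    rcases Nat.eq_zero_or_pos s with hs0 | hs0
    · have h1 := j.2
      have h2 := i.2
      omega
    obtain ⟨n, rfl⟩ : ∃ n, s = n + 1 := ⟨s - 1, by omega⟩
    set u : Z → RR Empty := fun j => if h : f.β j + 1 < n + 1 + 1 then
        th (n + 1 - (f.β j + 1)) (r ⟨f.β j + 1, h⟩ ⟨j, rfl⟩ : Cobar (n + 1 - (f.β j + 1))) else 0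
      with hu
    have hu1 : ∀ j, u j ∈ lev Empty (n + 1 - f.β j) ∧ WH wE (u j) (0, (M : ℤ)) ∧
        dE (n + 1 - f.β j) (u j) = 0 := by
      intro j
      rw [hu]
      simp only
      split_ifs with h
      · have h1 := th_Zc (r ⟨f.β j + 1, h⟩ ⟨j, rfl⟩).2
        have h2 : n + 1 - f.β j = n + 1 - (f.β j + 1) + 1 := by omega
        rw [h2]
        exact h1
      · exact ⟨Submodule.zero_mem _, isWeightedHomogeneous_zero _ _ _, map_zero _⟩
    obtain ⟨⟨H, v⟩, ⟨hH, hv⟩, e'⟩ := hM n (by omega) (G, u)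
      ⟨⟨hG, by
        have e3 : (((N + M : ℕ) : ℤ)) = (M : ℤ) + N := by push_cast; ring
        rw [e3] at hGw
        exact hGw⟩, fun j => ⟨(hu1 j).1, (hu1 j).2.1⟩⟩ (by
        refine Prod.ext ?_ (funext fun j => (hu1 j).2.2)
        change dE (n + 1) G + ∑ j, Stab.cup (f.z j) (n + 1 - f.β j) (u j) = 0
        rw [e1, add_self2])
    have e2 : ∀ j, dE (n - f.β j) (v j) = u j := fun j => congrFun (congrArg Prod.snd e') j
    obtain ⟨j, hj⟩ := j
    obtain ⟨i, hi⟩ := i
    simp only at hj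
    subst hj
    have h5 := e2 j
    rw [hu] at h5
    simp only [hi, dite_true] at h5
    refine mem_Bc.2 ⟨v j, ?_, (hv j).2, ?_⟩
    · have h6 : n - f.β j = n + 1 - (f.β j + 1) := by omega
      have h7 : v j ∈ lev Empty (n - f.β j) := (hv j).1
      rw [h6] at h7
      exact h7
    · have h6 : n - f.β j = n + 1 - (f.β j + 1) := by omega
      rw [h6] at h5
      exact h5
  intro w w' h
  have h1 : Psi f s M (w - w') = 0 := by
    have h2 : Psi f s M (w - w') = Psi f s M w - Psi f s M w' := by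
      unfold Psi
      rw [← Finset.sum_sub_distrib]
      refine Finset.sum_congr rfl fun i _ => ?_
      rw [← Finset.sum_sub_distrib]
      exact Finset.sum_congr rfl fun j _ => map_sub _ _ _
    rw [h2, h, sub_self]
  exact sub_eq_zero.1 (key _ h1)

lemma Psi_surj {s M : ℕ} (hM : ExK f Empty (fun _ => 0) s 0 M) :
    Function.Surjective (Psi f s M) := by
  intro x
  obtain ⟨p, rfl⟩ := cls_surj x
  obtain ⟨h1, h2, h3⟩ := th_Zc p.2
  obtain ⟨⟨G, v⟩, ⟨hG, hv⟩, e⟩ := hM (th s p, fun _ => 0)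
    ⟨⟨h1, by
      have e : ((N + M : ℕ) : ℤ) = (M : ℤ) + (N : ℤ) := by push_cast; ring
      rw [e] at h2
      exact h2⟩, fun j => Submodule.zero_mem _⟩ (by
      refine Prod.ext ?_ (funext fun j => ?_)
      · change dE (s + 1) (th s p) + ∑ j, Stab.cup (f.z j) (s + 1 - f.β j) (0 : RR Empty) = 0
        simp only [map_zero, Finset.sum_const_zero, add_zero]
        exact h3
      · change dE (s + 1 - f.β j) (0 : RR Empty) = 0
        exact map_zero _)
  have e1 : dE s G + ∑ j, Stab.cup (f.z j) (s - f.β j) (v j) = th s p := congrArg Prod.fst e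
  have e2 : ∀ j, dE (s - f.β j) (v j) = 0 := fun j => congrFun (congrArg Prod.snd e) j
  have hv' : ∀ (i : Fin (s + 1)) (j : {j : Z // f.β j + 1 = (i : ℕ)}),
      v j.1 ∈ lev Empty (s - i + 1) ∧ dE (s - i + 1) (v j.1) = 0 := by
    intro i j
    have h4 := (hv j.1).1
    have h5 := e2 j.1
    have h6 : s - f.β j.1 = s - i + 1 := by
      have := j.2
      have := i.2
      omega
    rw [h6] at h4 h5
    exact ⟨h4, h5⟩
  let r : ∀ i : Fin (s + 1), {j : Z // f.β j + 1 = (i : ℕ)} → Zc (s - i) M := fun i j =>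
    ⟨ps (s - i) (v j.1), ps_Zc (hv' i j).1 (hv j.1).2 (hv' i j).2⟩
  refine ⟨fun i j => cls (r i j), ?_⟩
  rw [Psi_cls]
  have h4 : cls (PsiC f s M r - p) = 0 := by
    rw [cls_zero, mem_Bc]
    refine ⟨G, hG.1, ?_, ?_⟩
    · have e : ((N + M : ℕ) : ℤ) = (M : ℤ) + (N : ℤ) := by push_cast; ring
      rw [e]
      exact hG.2
    · change _ = th s (PsiC f s M r - p)
      have h5 : th s (PsiC f s M r) = ∑ j, Stab.cup (f.z j) (s - f.β j) (v j) := by
        rw [th_PsiC]
        refine Finset.sum_congr rfl fun j _ => ?_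
        congr 1
        split_ifs with h
        · exact th_surj (hv' ⟨f.β j + 1, h⟩ ⟨j, rfl⟩).1
        · have h6 : v j ∈ lev Empty (s - f.β j) := (hv j).1
          rw [show s - f.β j = 0 by omega] at h6
          exact (show v j = 0 from h6).symm
      rw [map_sub, h5, ← e1, sub_eq2, add_comm, add_assoc, add_self2, add_zero]
  exact sub_eq_zero.1 h4

end fam

/-- The Kuenneth formula from a good family. -/
theorem kunneth_of_fam {s N M : ℕ} {Z : Type} [Fintype Z] (f : Fam Z (N : ℤ))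
    (h0 : ∀ p' ≤ s, ExK f Empty (fun _ => 0) p' 0 0)
    (hM : ∀ p' ≤ s, ExK f Empty (fun _ => 0) p' 0 M) : Kunneth s N M := by
  intro K K' x y hx hy
  have hz : ∀ i : Fin (s + 1), ∃ b : Basis {j : Z // f.β j + 1 = (i : ℕ)} (ZMod 2) (Ext i N),
      ∀ j, b j = cls (zc f i j) := by
    intro i
    obtain ⟨b, hb⟩ := basis_of_isBasis (zc_basis f h0 (Nat.le_of_lt_succ i.2))
    exact ⟨b, hb⟩
  choose z hz using hz
  have hx' : ∀ i : Fin (s + 1), ∃ b : Basis (K i) (ZMod 2) (Ext i N),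
      ∀ k, b k = cls ⟨x i k, (hx i (Nat.le_of_lt_succ i.2)).1 k⟩ := fun i =>
    basis_of_isBasis (hx i (Nat.le_of_lt_succ i.2))
  choose bx hbx using hx'
  have hy' : ∀ i : Fin (s + 1), ∃ b : Basis (K' (s - i)) (ZMod 2) (Ext (s - i) M),
      ∀ k, b k = cls ⟨y (s - i) k, (hy (s - i) (Nat.sub_le _ _)).1 k⟩ := fun i =>
    basis_of_isBasis (hy (s - i) (Nat.sub_le _ _))
  choose bY hbY using hy'
  obtain ⟨b, hb⟩ := kunneth_abs (k := ZMod 2) (I := Fin (s + 1)) (V := fun i => Ext i N)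
    (W := fun i => Ext (s - i) M) (fun i => mulF s N M i) z (by
      have h1 : (fun w : ∀ i : Fin (s + 1), {j : Z // f.β j + 1 = (i : ℕ)} → Ext (s - i) M =>
          ∑ i, ∑ j, mulF s N M i (z i j) (w i j)) = Psi f s M := by
        funext w
        unfold Psi
        refine Finset.sum_congr rfl fun i _ => Finset.sum_congr rfl fun j _ => ?_
        rw [hz]
      rw [h1]
      exact ⟨Psi_inj f hM, Psi_surj f (hM s le_rfl)⟩) bx bY
  refine isBasis_of_basis (fun v => juxF_Zc ((hx _ (Nat.le_of_lt_succ v.1.2)).1 _)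
    ((hy _ (Nat.sub_le _ _)).1 _)) b fun v => ?_
  rw [hb, hbx, hbY, mulF_cls]

/-- The asymptotic Kuenneth formula. -/
theorem kunneth (s : ℕ) : ∃ L : ℕ, ∀ a N M : ℕ, M < 2 ^ a → 0 < N → 2 ^ (a + L) ∣ N →
    Kunneth s N M := by
  obtain ⟨L, hL⟩ := kunnethE s
  refine ⟨L, fun a N M hM hN hd => ?_⟩
  obtain ⟨Z, _, f, h0, hM'⟩ := hL a M N (by omega) (by exact_mod_cast hM) (by exact_mod_cast hN)
    (by exact_mod_cast hd)
  exact kunneth_of_fam f h0 hM'

end

end Pool.Agent.Work.MP_701abf_gt.Cob
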