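import Pool.Agent.Work.MP_701abf_gt.Cob.Defs

/-!
Juxtaposition of cochains and the cup-`(s-1)` square.
-/

open MvPolynomial

namespace Pool.Agent.Work.MP_701abf_gt.Cob

noncomputable section

/-- Juxtaposition `[p | q]` of cochains. -/
def jux (i j : ℕ) (p : Cobar i) (q : Cobar j) : Cobar (i + j) :=
  rename (fun v => (Fin.castAdd j v.1, v.2)) p * rename (fun v => (Fin.natAdd i v.1, v.2)) q

/-- The cup-`(s-1)` square of a cochain of degree `s`: the sum of the products
`δ^i p · δ^j p` of cofaces over `i < j ≤ s + 1` with `i ≡ j` modulo `2`. On cocycles it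
represents `Sq^1 : Ext^{s,t} → Ext^{s+1,2t}`. -/
def sqOne (s : ℕ) (p : Cobar s) : Cobar (s + 1) :=
  ∑ j ∈ Finset.range (s + 2), ∑ i ∈ Finset.range j,
    if i % 2 = j % 2 then coface s i p * coface s j p else 0

end

end Pool.Agent.Work.MP_701abf_gt.Cob
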