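import Pool.Agent.Work.MP_701abf_gt.Cob.ExtOne
import Pool.Agent.Work.MP_701abf_gt.Stab.Cartan

/-!
Degrees which are sums of powers of two with large gaps.
-/

open MvPolynomial Module
open Pool.Agent.Work.MP_701abf_gt.Stab
open scoped TensorProduct

namespace Pool.Agent.Work.MP_701abf_gt.Cob

/-! ### Components -/

lemma tmul_ne {k V W : Type} [Field k] [AddCommGroup V] [Module k V] [AddCommGroup W] [Module k W]
    {x : V} {y : W} (hx : x ≠ 0) (hy : y ≠ 0) : x ⊗ₜ[k] y ≠ 0 := by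
  intro h
  obtain ⟨f, hf⟩ := Module.Projective.exists_dual_ne_zero k hx
  have h1 := congrArg (fun u => TensorProduct.lid k W (f.rTensor W u)) h
  simp only [LinearMap.rTensor_tmul, TensorProduct.lid_tmul, map_zero] at h1
  rcases smul_eq_zero.1 h1 with h2 | h2
  · exact hf h2
  · exact hy h2

lemma two_comp {s N M : ℕ} (hb : Function.Bijective (totE s N M)) {i k i' k' : ℕ}
    (h : i + k = s) (h' : i' + k' = s) (hne : i ≠ i') {p : Cobar i} {q : Cobar k}
    {p' : Cobar i'} {q' : Cobar k'} (hp : p ∈ Zc i N) (hq : q ∈ Zc k M) (hp' : p' ∈ Zc i' N)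
    (hq' : q' ∈ Zc k' M)
    (hB : castC h (jux i k p q) + castC h' (jux i' k' p' q') ∈ Bc s (N + M)) :
    p ∈ Bc i N ∨ q ∈ Bc k M := by
  classical
  obtain rfl : k = s - i := by omega
  obtain rfl : k' = s - i' := by omega
  by_contra hcon
  push Not at hcon
  let I : Fin (s + 1) := ⟨i, by omega⟩
  let I' : Fin (s + 1) := ⟨i', by omega⟩
  have hII : I ≠ I' := fun e => hne (congrArg Fin.val e)
  let w : ∀ j : Fin (s + 1), EE j N ⊗[ZMod 2] EE (s - j) M :=
    Pi.single I ((clE (⟨p, hp⟩ : Zc I N)) ⊗ₜ[ZMod 2] (clE (⟨q, hq⟩ : Zc (s - I) M))) +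
    Pi.single I' ((clE (⟨p', hp'⟩ : Zc I' N)) ⊗ₜ[ZMod 2] (clE (⟨q', hq'⟩ : Zc (s - I') M)))
  have hs : ∀ (J : Fin (s + 1)) (x : Zc J N) (y : Zc (s - J) M),
      totE s N M (Pi.single J (clE x ⊗ₜ[ZMod 2] clE y)) =
        clE ⟨juxF s J x y, juxF_Zc x.2 y.2⟩ := by
    intro J x y
    unfold totE
    rw [totPhi_apply, Finset.sum_eq_single J]
    · rw [Pi.single_eq_same, TensorProduct.lift.tmul]
      exact mulE_cls x y
    · intro i' _ hne
      rw [Pi.single_eq_of_ne hne, map_zero]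
    · intro h
      exact absurd (Finset.mem_univ J) h
  have h1 : totE s N M w = 0 := by
    rw [map_add, hs, hs]
    have h2 : clE (⟨juxF s I p q, juxF_Zc hp hq⟩ : Zc s (N + M)) +
        clE ⟨juxF s I' p' q', juxF_Zc hp' hq'⟩ =
        clE (⟨juxF s I p q, juxF_Zc hp hq⟩ + ⟨juxF s I' p' q', juxF_Zc hp' hq'⟩) := rfl
    rw [h2, clE_zero]
    exact hB
  have h3 : w = 0 := hb.1 (by rw [h1, map_zero])
  have h4 : w I = (clE (⟨p, hp⟩ : Zc I N)) ⊗ₜ[ZMod 2] (clE (⟨q, hq⟩ : Zc (s - I) M)) := by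
    change (Pi.single I _ + Pi.single I' _ : ∀ j : Fin (s + 1), EE j N ⊗[ZMod 2] EE (s - j) M) I = _
    rw [Pi.add_apply, Pi.single_eq_same, Pi.single_eq_of_ne hII, add_zero]
  rw [h3] at h4
  have h4 := h4.symm
  refine tmul_ne (k := ZMod 2) ?_ ?_ h4
  · rw [Ne, clE_zero]
    exact hcon.1
  · rw [Ne, clE_zero]
    exact hcon.2

lemma jux_zero_left {i k : ℕ} (q : Cobar k) : jux i k 0 q = 0 := by
  unfold jux
  rw [map_zero, zero_mul]

lemma one_comp {s N M : ℕ} (hs : 0 < s) (hb : Function.Bijective (totE s N M)) {i k : ℕ}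
    (h : i + k = s) {p : Cobar i} {q : Cobar k} (hp : p ∈ Zc i N) (hq : q ∈ Zc k M)
    (hB : castC h (jux i k p q) ∈ Bc s (N + M)) : p ∈ Bc i N ∨ q ∈ Bc k M := by
  obtain ⟨i', hi', hne⟩ : ∃ i', i' ≤ s ∧ i ≠ i' := by
    by_cases h0 : i = 0
    · exact ⟨1, hs, by omega⟩
    · exact ⟨0, by omega, h0⟩
  refine two_comp hb h (show i' + (s - i') = s by omega) hne hp hq
    (Submodule.zero_mem (Zc i' N)) (Submodule.zero_mem (Zc (s - i') M)) ?_
  rw [jux_zero_left, map_zero, add_zero]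
  exact hB

/-! ### Chain level formulas -/

lemma jux_pow {i k : ℕ} (p : Cobar i) (q : Cobar k) (n : ℕ) :
    jux i k (p ^ n) (q ^ n) = jux i k p q ^ n := by
  unfold jux
  rw [map_pow, map_pow, mul_pow]

/-- The Cartan formula for the product with a cochain of degree one. -/
lemma sqOne_jux {s : ℕ} {p : Cobar s} {q : Cobar 1} (hp : cobarD s p = 0) (hq : cobarD 1 q = 0) :
    sqOne (s + 1) (jux s 1 p q) = jux s 2 (p ^ 2) (sqOne 1 q) +
      jux (s + 1) 1 (sqOne s p) (q ^ 2) := by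
  apply th_inj
  have h1 : dE (s + 1) (th s p) = 0 := by rw [← th_d, hp, map_zero]
  have h2 : dE (1 + 1) (th 1 q) = 0 := by rw [← th_d, hq, map_zero]
  have h3 := sq1_cup (i := s) (j := 1) (F := th s p) (th_lev 1 q) h2 h1
  have h4 : th (s + 1 + 1) (jux (s + 1) 1 (sqOne s p) (q ^ 2)) =
      th 1 (q ^ 2) * sh 1 (th (s + 1) (sqOne s p)) := th_jux (s + 1) 1 _ _
  have h5 : th (s + 1 + 1) (jux s 2 (p ^ 2) (sqOne 1 q)) =
      th 2 (sqOne 1 q) * sh 2 (th s (p ^ 2)) := th_jux s 2 _ _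
  have h6 : th 2 (sqOne 1 q) = sq1 (fun _ => 0) 2 (th 1 q) := th_sqOne 1 q
  rw [th_sqOne, th_jux, map_add, h4, h5, h6, th_sqOne, map_pow (th s), map_pow (th 1)]
  rw [show s + 1 + 1 = 1 + s + 1 by ring]
  exact h3

lemma sqOne_one (q : Cobar 1) : sqOne 1 q = jux 1 1 q q := by
  have e0 : coface 1 0 = rename (fun v : Fin 1 × ℕ => (Fin.natAdd 1 v.1, v.2)) := by
    refine algHom_ext fun v => ?_
    unfold coface
    rw [aeval_X, rename_X, if_neg (by omega), if_neg (by omega)]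
    congr 2
    ext
    simp only [Fin.val_succ, Fin.val_natAdd]
    omega
  have e2 : coface 1 2 = rename (fun v : Fin 1 × ℕ => (Fin.castAdd 1 v.1, v.2)) := by
    refine algHom_ext fun v => ?_
    unfold coface
    rw [aeval_X, rename_X, if_pos (by have := v.1.2; omega)]
    rfl
  have h : sqOne 1 q = coface 1 0 q * coface 1 2 q := by
    unfold sqOne
    have h3 : Finset.range (1 + 2) = {0, 1, 2} := rfl
    have h1 : Finset.range 1 = {0} := rfl
    have h2 : Finset.range 2 = {0, 1} := rfl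
    rw [h3, Finset.sum_insert (by decide), Finset.sum_insert (by decide), Finset.sum_singleton,
      Finset.range_zero, Finset.sum_empty, h1, h2, Finset.sum_singleton,
      Finset.sum_insert (by decide), Finset.sum_singleton, if_neg (by decide), if_pos (by decide),
      if_neg (by decide), zero_add, zero_add, add_zero]
  rw [h, mul_comm, e0, e2]
  rfl

/-! ### Spread degrees -/

/-- `t` is a sum of `s` powers of two, with gaps larger than `L` between the exponents. -/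
inductive Spread (L : ℕ) : ℕ → ℕ → Prop
  | one (a : ℕ) : Spread L 1 (2 ^ a)
  | succ {s t : ℕ} (a : ℕ) (h : Spread L s t) (hd : 2 ^ (a + 1 + L) ∣ t) :
      Spread L (s + 1) (t + 2 ^ a)

/-- The Kuenneth formula holds on the lines up to `n` with gap `L`. -/
def GoodL (n L : ℕ) : Prop :=
  ∀ s ≤ n, ∀ a N M : ℕ, M < 2 ^ a → 0 < N → 2 ^ (a + L) ∣ N → Function.Bijective (totE s N M)

lemma GoodL.mono {n n' L L' : ℕ} (hn : n' ≤ n) (hL : L ≤ L') (h : GoodL n L) : GoodL n' L' :=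
  fun s hs a N M hM hN hd =>
    h s (hs.trans hn) a N M hM hN ((pow_dvd_pow 2 (by omega)).trans hd)

lemma exists_goodL (n : ℕ) : ∃ L, GoodL n L := by
  induction n with
  | zero =>
    obtain ⟨L, hL⟩ := kunneth_bij 0
    refine ⟨L, fun s hs => ?_⟩
    obtain rfl : s = 0 := by omega
    exact hL
  | succ n ih =>
    obtain ⟨L1, h1⟩ := ih
    obtain ⟨L2, h2⟩ := kunneth_bij (n + 1)
    refine ⟨max L1 L2, fun s hs => ?_⟩
    rcases Nat.lt_or_ge s (n + 1) with h | h
    · exact (h1.mono le_rfl (le_max_left _ _)) s (by omega)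
    · obtain rfl : s = n + 1 := by omega
      intro a N M hM hN hd
      exact h2 a N M hM hN ((pow_dvd_pow 2 (by have := le_max_right L1 L2; omega)).trans hd)

lemma dm_one_eq {s t : ℕ} (h : dm s t = 1) {p q : Cobar s} (hp : p ∈ Zc s t) (hq : q ∈ Zc s t)
    (hp' : p ∉ Bc s t) (hq' : q ∉ Bc s t) : p - q ∈ Bc s t := by
  obtain ⟨v, hv, hall⟩ := finrank_eq_one_iff'.1 h
  have key : ∀ x : EE s t, x ≠ 0 → x = v := by
    intro x hx
    obtain ⟨c, rfl⟩ := hall x
    have hc : c = 0 ∨ c = 1 := by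
      clear hx
      revert c
      decide
    rcases hc with rfl | rfl
    · rw [zero_smul] at hx
      exact absurd rfl hx
    · rw [one_smul]
  have h1 : clE (⟨p, hp⟩ : Zc s t) = clE ⟨q, hq⟩ := by
    rw [key _ fun h => hp' ((clE_zero _).1 h), key _ fun h => hq' ((clE_zero _).1 h)]
  have h2 : clE (⟨p, hp⟩ - ⟨q, hq⟩ : Zc s t) = 0 := by
    have h3 : clE (⟨p, hp⟩ - ⟨q, hq⟩ : Zc s t) = clE ⟨p, hp⟩ - clE ⟨q, hq⟩ := rfl
    rw [h3, h1, sub_self]
  exact (clE_zero _).1 h2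

lemma exists_class {s t : ℕ} (h : dm s t ≠ 0) : ∃ p ∈ Zc s t, p ∉ Bc s t := by
  by_contra hcon
  push Not at hcon
  exact h (dm_zero_iff.2 hcon)

lemma sqOne_congr {s t : ℕ} {p q : Cobar s} (hp : p ∈ Zc s t) (hq : q ∈ Zc s t)
    (h : p - q ∈ Bc s t) (h2 : sqOne s p ∈ Bc (s + 1) (2 * t)) :
    sqOne s q ∈ Bc (s + 1) (2 * t) := by
  have h3 : cls (⟨p, hp⟩ : Zc s t) = cls ⟨q, hq⟩ := by
    rw [← sub_eq_zero]
    exact (cls_zero (⟨p, hp⟩ - ⟨q, hq⟩)).2 h
  have h4 : Sq1 s t (cls ⟨p, hp⟩) = 0 := by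
    rw [Sq1_cls]
    exact (cls_zero _).2 h2
  rw [h3, Sq1_cls] at h4
  exact (cls_zero _).1 h4

lemma ha_Bc (a : ℕ) : ((xi (0 : Fin 1) 1 : Cobar 1) ^ 2 ^ a) ∉ Bc 1 (2 ^ a) :=
  fun h => hE_ne a ((clE_zero _).2 h)

theorem Spread.main {L s t : ℕ} (h : Spread L s t) (hL : GoodL (s + 1) L) :
    0 < s ∧ 0 < t ∧ (∀ i < s, dm i t = 0) ∧ dm s t = 1 ∧
      ∀ p ∈ Zc s t, p ∉ Bc s t → ∀ j,
        p ^ 2 ^ j ∉ Bc s (2 ^ j * t) ∧ sqOne s (p ^ 2 ^ j) ∉ Bc (s + 1) (2 * (2 ^ j * t)) := by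
  induction h with
  | one a =>
    refine ⟨one_pos, by positivity, fun i hi => ?_, dm_one_pow a, fun p hp hp' j => ?_⟩
    · obtain rfl : i = 0 := by omega
      exact dm_zero_left (by positivity)
    · have h1 : p - xi 0 1 ^ 2 ^ a = 0 := Bc_one (dm_one_eq (dm_one_pow a) hp (ha_Zc a) hp' (ha_Bc a))
      rw [sub_eq_zero.1 h1, ← pow_mul, ← pow_add, ← pow_add]
      refine ⟨?_, ?_⟩
      · rw [add_comm j a]
        exact ha_Bc _
      · rw [sqOne_one, two_mul, add_comm j a]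
        exact ha_sq _
  | @succ s t a h hd ih =>
    obtain ⟨hs, ht, hlow, h1, hnz⟩ := ih (hL.mono (by omega) le_rfl)
    have ha : 2 ^ a < 2 ^ (a + 1) := Nat.pow_lt_pow_right (by norm_num) (by omega)
    have hK : ∀ i ≤ s + 2, Function.Bijective (totE i t (2 ^ a)) := fun i hi =>
      hL i (by omega) (a + 1) t (2 ^ a) ha ht hd
    have hlow' : ∀ i < s + 1, dm i (t + 2 ^ a) = 0 := by
      intro i hi
      rw [dm_kunneth (hK i (by omega))]
      refine Finset.sum_eq_zero fun k _ => ?_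
      have hk := k.2
      rcases Nat.lt_or_ge (k : ℕ) s with h2 | h2
      · rw [hlow _ h2, zero_mul]
      · have h3 : i - (k : ℕ) = 0 := by omega
        rw [h3, dm_zero_left (by positivity), mul_zero]
    have hone : dm (s + 1) (t + 2 ^ a) = 1 := by
      rw [dm_kunneth (hK (s + 1) (by omega)),
        Finset.sum_eq_single (⟨s, by omega⟩ : Fin (s + 1 + 1))]
      · have h3 : s + 1 - s = 1 := by omega
        simp only [h3]
        rw [h1, dm_one_pow]
      · intro k _ hk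
        have hk2 := k.2
        rcases Nat.lt_or_ge (k : ℕ) s with h2 | h2
        · rw [hlow _ h2, zero_mul]
        · have h3 : (k : ℕ) ≠ s := fun h => hk (Fin.ext h)
          have h4 : s + 1 - (k : ℕ) = 0 := by omega
          rw [h4, dm_zero_left (by positivity), mul_zero]
      · intro h
        exact absurd (Finset.mem_univ _) h
    refine ⟨by omega, by positivity, hlow', hone, fun p hp hp' j => ?_⟩
    obtain ⟨q, hq, hq'⟩ := exists_class (s := s) (t := t) (by rw [h1]; exact one_ne_zero)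
    -- the product class
    set H : Cobar (s + 1) := jux s 1 q (xi 0 1 ^ 2 ^ a) with hH
    have hHZ : H ∈ Zc (s + 1) (t + 2 ^ a) := jux_Zc hq (ha_Zc a)
    have hHB : H ∉ Bc (s + 1) (t + 2 ^ a) := by
      intro hcon
      rcases one_comp (by omega) (hK (s + 1) (by omega)) rfl hq (ha_Zc a)
        (by rw [castC_rfl]; exact hcon) with h2 | h2
      · exact hq' h2
      · exact ha_Bc a h2
    have hpH : p - H ∈ Bc (s + 1) (t + 2 ^ a) := dm_one_eq hone hp hHZ hp' hHB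
    have hpHj : p ^ 2 ^ j - H ^ 2 ^ j ∈ Bc (s + 1) (2 ^ j * (t + 2 ^ a)) := by
      have h2 := fr_Bc (j := j) hpH
      have h3 : (p - H) ^ 2 ^ j = p ^ 2 ^ j - H ^ 2 ^ j := map_sub (frMap (s + 1) j) p H
      rw [h3] at h2
      exact h2
    have hqj := hnz q hq hq'
    have hqZ : ∀ j, q ^ 2 ^ j ∈ Zc s (2 ^ j * t) := fun j => fr_Zc hq
    have hHj : H ^ 2 ^ j = jux s 1 (q ^ 2 ^ j) (xi 0 1 ^ 2 ^ (a + j)) := by
      rw [hH, pow_add, pow_mul, jux_pow]
    have hdj : ∀ j, 2 ^ (a + j + 1 + L) ∣ 2 ^ j * t := by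
      intro j
      obtain ⟨c, hc⟩ := hd
      exact ⟨c, by rw [hc, ← mul_assoc, ← pow_add]; congr 2; ring⟩
    have haj : ∀ j, 2 ^ (a + j) < 2 ^ (a + j + 1) := fun j =>
      Nat.pow_lt_pow_right (by norm_num) (by omega)
    refine ⟨fun hcon => ?_, fun hcon => ?_⟩
    · have h2 : H ^ 2 ^ j ∈ Bc (s + 1) (2 ^ j * (t + 2 ^ a)) := by
        have h3 := Submodule.sub_mem _ hcon hpHj
        rw [sub_sub_cancel] at h3
        exact h3
      have e : 2 ^ j * (t + 2 ^ a) = 2 ^ j * t + 2 ^ (a + j) := by rw [mul_add, ← pow_add]; ring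
      rw [e, hHj] at h2
      rcases one_comp (by omega)
        (hL (s + 1) (by omega) (a + j + 1) (2 ^ j * t) (2 ^ (a + j)) (haj j) (by positivity)
          (hdj j)) rfl (hqZ j) (ha_Zc (a + j)) (by rw [castC_rfl]; exact h2) with h4 | h4
      · exact (hqj j).1 h4
      · exact ha_Bc _ h4
    · have h2 : sqOne (s + 1) (H ^ 2 ^ j) ∈ Bc (s + 1 + 1) (2 * (2 ^ j * (t + 2 ^ a))) :=
        sqOne_congr (fr_Zc hp) (fr_Zc hHZ) hpHj hcon
      have e : 2 * (2 ^ j * (t + 2 ^ a)) = 2 ^ (j + 1) * t + 2 ^ (a + (j + 1)) := by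
        rw [pow_add, pow_add, pow_add]; ring
      rw [e, hHj, sqOne_jux (hqZ j).2 (ha_Zc (a + j)).2, ← pow_mul, ← pow_mul, ← pow_succ,
        ← pow_succ, sqOne_one] at h2
      rcases two_comp (s := s + 2) (i := s) (k := 2) (i' := s + 1) (k' := 1)
        (hL (s + 2) (by omega) (a + (j + 1) + 1) (2 ^ (j + 1) * t) (2 ^ (a + (j + 1)))
          (haj (j + 1)) (by positivity) (hdj (j + 1))) rfl (by ring) (by omega)
        (p := q ^ 2 ^ (j + 1)) (q := jux 1 1 (xi 0 1 ^ 2 ^ (a + j)) (xi 0 1 ^ 2 ^ (a + j)))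
        (p' := sqOne s (q ^ 2 ^ j)) (q' := xi 0 1 ^ 2 ^ (a + (j + 1)))
        (hqZ (j + 1)) (by
          have := jux_Zc (ha_Zc (a + j)) (ha_Zc (a + j))
          have e2 : 2 ^ (a + (j + 1)) = 2 ^ (a + j) + 2 ^ (a + j) := by
            rw [← add_assoc, pow_succ]; ring
          rw [e2]
          exact this) (by
          have := sqOne_Zc (hqZ j)
          have e2 : 2 ^ (j + 1) * t = 2 * (2 ^ j * t) := by rw [pow_succ]; ring
          rw [e2]
          exact this) (ha_Zc _) (by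
          have e5 : castC (show s + 1 + 1 = s + 2 by ring) (jux (s + 1) 1 (sqOne s (q ^ 2 ^ j))
              (xi 0 1 ^ 2 ^ (a + (j + 1)))) = jux (s + 1) 1 (sqOne s (q ^ 2 ^ j))
              (xi 0 1 ^ 2 ^ (a + (j + 1))) := castC_rfl _
          rw [castC_rfl, e5]
          exact h2) with h4 | h4
      · exact (hqj (j + 1)).1 h4
      · have e2 : 2 ^ (a + (j + 1)) = 2 ^ (a + j) + 2 ^ (a + j) := by
          rw [← add_assoc, pow_succ]; ring
        rw [e2] at h4
        exact ha_sq _ h4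

end Pool.Agent.Work.MP_701abf_gt.Cob
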