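import Pool.Agent.Work.MP_701abf_gt.Cob.OpsDefs

/-!
The cup-`(s-2)` square.
-/

open MvPolynomial

namespace Pool.Agent.Work.MP_701abf_gt.Cob

noncomputable section

/-- The iterated coface `δ^v δ^u p`, used for `u < v`: in terms of functions on simplices it is
the value of `p` on the face which misses the vertices `u` and `v`. -/
def miss (s u v : ℕ) (p : Cobar s) : Cobar (s + 2) := coface (s + 1) v (coface s u p)

/-- The cup-`(s-2)` square of a cochain of degree `s`: a sum over the quadruples of vertices
`a < b < c < d ≤ s + 2` (those which are not cut points in Steenrod's formula), with a term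
according to their parities. On cocycles it represents `Sq^2 : Ext^{s,t} → Ext^{s+2,2t}`. -/
def sqTwo (s : ℕ) (p : Cobar s) : Cobar (s + 2) :=
  ∑ d ∈ Finset.range (s + 3), ∑ c ∈ Finset.range d, ∑ b ∈ Finset.range c,
    ∑ a ∈ Finset.range b,
      if a % 2 = b % 2 ∧ b % 2 = c % 2 ∧ c % 2 = d % 2 then miss s a c p * miss s b d p
      else if a % 2 = b % 2 ∧ c % 2 = d % 2 then miss s a d p * miss s b c p
      else if a % 2 = d % 2 ∧ b % 2 = c % 2 then miss s a b p * miss s c d p
      else 0

end

end Pool.Agent.Work.MP_701abf_gt.Cob
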