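import Pool.Agent.Work.MP_701abf_gt.Cob.Ops
import Pool.Agent.Work.MP_701abf_gt.Cob.SqTwoDefs
import Pool.Agent.Work.MP_701abf_gt.Stab.HOne

/-!
Non-vanishing of `h_1 Sq^2` along `Sq^0`-families, modulo `h_0`.
-/

open MvPolynomial
open Pool.Agent.Work.MP_701abf_gt.Stab

namespace Pool.Agent.Work.MP_701abf_gt.Cob

lemma coface_Hom {s t j : ℕ} (hj : j ≤ s + 1) {p : Cobar s} (hp : p ∈ Hom s t) :
    coface s j p ∈ Hom (s + 1) t := by
  have h1 : coface s j p = ps (s + 1) (face (fun _ => 0) (s + 1 - j) (th s p)) := by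
    rw [← th_coface hj, ps_th]
  rw [h1]
  exact ps_Hom ((face_gr _ _ _).map (th_Hom hp))

lemma mul_Hom {s t t' : ℕ} {p q : Cobar s} (hp : p ∈ Hom s t) (hq : q ∈ Hom s t') :
    p * q ∈ Hom s (t + t') := IsWeightedHomogeneous.mul hp hq

lemma miss_Hom {s t u v : ℕ} (hu : u < v) (hv : v < s + 3) {p : Cobar s} (hp : p ∈ Hom s t) :
    miss s u v p ∈ Hom (s + 2) t :=
  coface_Hom (by omega) (coface_Hom (by omega) hp)

lemma sqTwo_Hom {s t : ℕ} {p : Cobar s} (hp : p ∈ Hom s t) : sqTwo s p ∈ Hom (s + 2) (2 * t) := by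
  unfold sqTwo
  refine Submodule.sum_mem _ fun d hd => Submodule.sum_mem _ fun c hc =>
    Submodule.sum_mem _ fun b hb => Submodule.sum_mem _ fun a ha => ?_
  have h1 := Finset.mem_range.1 hd
  have h2 := Finset.mem_range.1 hc
  have h3 := Finset.mem_range.1 hb
  have h4 := Finset.mem_range.1 ha
  rw [two_mul]
  split_ifs
  · exact mul_Hom (miss_Hom (by omega) (by omega) hp) (miss_Hom (by omega) (by omega) hp)
  · exact mul_Hom (miss_Hom (by omega) (by omega) hp) (miss_Hom (by omega) (by omega) hp)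
  · exact mul_Hom (miss_Hom (by omega) (by omega) hp) (miss_Hom (by omega) (by omega) hp)
  · exact Submodule.zero_mem _

lemma sum_pow_two (s j : ℕ) (T : Finset ℕ) (f : ℕ → Cobar s) :
    (∑ i ∈ T, f i) ^ 2 ^ j = ∑ i ∈ T, f i ^ 2 ^ j := map_sum (frMap s j) f T

lemma sqTwo_pow (s j : ℕ) (p : Cobar s) : sqTwo s (p ^ 2 ^ j) = sqTwo s p ^ 2 ^ j := by
  have hm : ∀ u v, miss s u v (p ^ 2 ^ j) = miss s u v p ^ 2 ^ j := by
    intro u v
    unfold miss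
    rw [map_pow, map_pow]
  unfold sqTwo
  rw [sum_pow_two]
  refine Finset.sum_congr rfl fun d _ => ?_
  rw [sum_pow_two]
  refine Finset.sum_congr rfl fun c _ => ?_
  rw [sum_pow_two]
  refine Finset.sum_congr rfl fun b _ => ?_
  rw [sum_pow_two]
  refine Finset.sum_congr rfl fun a _ => ?_
  simp only [hm]
  split_ifs
  · rw [mul_pow]
  · rw [mul_pow]
  · rw [mul_pow]
  · rw [zero_pow (by positivity)]

lemma cobarD_jux {s : ℕ} (p : Cobar s) {q : Cobar 1} (hq : cobarD 1 q = 0) :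
    cobarD (s + 1) (jux s 1 p q) = jux (s + 1) 1 (cobarD s p) q := by
  apply th_inj
  have h2 : dR (fun _ : Empty => 0) (1 + 1) (th 1 q) = 0 := by
    have := th_d 1 q
    rw [hq, map_zero] at this
    exact this.symm
  have h3 : th (s + 1 + 1) (jux (s + 1) 1 (cobarD s p) q) =
      th 1 q * sh 1 (th (s + 1) (cobarD s p)) := th_jux (s + 1) 1 _ _
  rw [th_d, th_jux, h3, th_d]
  have h1 := dR_cup (ι := Empty) (fun _ => 0) (a := 1) (b := s) (th_lev 1 q) (th s p)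
  rw [h2, zero_mul, zero_add] at h1
  rw [show s + 1 + 1 = 1 + s + 1 by ring]
  exact h1

lemma jux_eq_zero {s : ℕ} {p : Cobar s} {q : Cobar 1} (hq : q ≠ 0) (h : jux s 1 p q = 0) :
    p = 0 := by
  unfold jux at h
  rcases mul_eq_zero.1 h with h1 | h1
  · refine rename_injective _ ?_ (h1.trans (map_zero _).symm)
    intro v w hvw
    have h2 := Prod.mk.inj hvw
    exact Prod.ext (Fin.castAdd_injective _ _ h2.1) h2.2
  · refine absurd (rename_injective _ ?_ (h1.trans (map_zero _).symm)) hq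
    intro v w hvw
    have h2 := Prod.mk.inj hvw
    exact Prod.ext (Fin.natAdd_injective _ _ h2.1) h2.2

lemma Bc_ker {s t : ℕ} {p : Cobar s} (hp : p ∈ Bc s t) : cobarD s p = 0 := by
  obtain ⟨G, hG, hw, e⟩ := mem_Bc.1 hp
  apply th_inj
  rw [th_d, ← e, map_zero]
  exact dR_dR' _ hG

lemma h1_Zc : ((xi (0 : Fin 1) 1 : Cobar 1) ^ 2) ∈ Zc 1 2 := by
  have := sqMap_Zc xi_Zc
  exact this

/-- If `[z | ξ_1²] + [w | ξ_1]` is a coboundary, with `w` a cocycle, then `z` is a coboundary. -/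
theorem h1_cobar (s : ℕ) : ∃ J : ℕ, ∀ N : ℕ, 0 < N → 2 ^ J ∣ N → ∀ z ∈ Hom s N,
    ∀ w ∈ Zc s (N + 1), jux s 1 z (xi 0 1 ^ 2) + jux s 1 w (xi 0 1) ∈ Bc (s + 1) (N + 2) →
    z ∈ Bc s N := by
  obtain ⟨J, hJ⟩ := h1_indep s
  refine ⟨J, fun N hN hd z hz w hw h => ?_⟩
  -- `z` is a cocycle
  have hq : (xi (0 : Fin 1) 1 : Cobar 1) ≠ 0 := X_ne_zero _
  have h1 : cobarD (s + 1) (jux s 1 z (xi 0 1 ^ 2) + jux s 1 w (xi 0 1)) = 0 := Bc_ker h
  have hx0 : cobarD 1 (xi (0 : Fin 1) 1) = 0 := xi_Zc.2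
  have hx1 : cobarD 1 (xi (0 : Fin 1) 1 ^ 2) = 0 := h1_Zc.2
  have hw0 : cobarD s w = 0 := hw.2
  rw [map_add, cobarD_jux z hx1, cobarD_jux w hx0, hw0] at h1
  have h2 : jux (s + 1) 1 (0 : Cobar (s + 1)) (xi 0 1) = 0 := by
    unfold jux
    rw [map_zero, zero_mul]
  rw [h2, add_zero] at h1
  have hz0 : cobarD s z = 0 := jux_eq_zero (pow_ne_zero 2 hq) h1
  have hzZ : z ∈ Zc s N := ⟨hz, hz0⟩
  obtain ⟨a1, a2, a3⟩ := th_Zc hzZ
  obtain ⟨b1, b2, b3⟩ := th_Zc hw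
  obtain ⟨F, hF, hFw, eF⟩ := mem_Bc.1 h
  have e0 : th 1 (xi (0 : Fin 1) 1) = h0c := th_X 1 (0, 0)
  obtain ⟨G, hG, hGw, e⟩ := hJ N (by exact_mod_cast hN) (by exact_mod_cast hd) (th s z) a1 a2 a3
    (th s w) b1 (by
      have e1 : ((N + 1 : ℕ) : ℤ) = 1 + (N : ℤ) := by push_cast; ring
      rw [e1] at b2
      exact b2) b3
    ⟨F, hF, by
      have e1 : ((N + 2 : ℕ) : ℤ) = 2 + (N : ℤ) := by push_cast; ring
      rw [e1] at hFw
      exact hFw, by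
      rw [eF, map_add, th_jux, th_jux, map_pow, e0]
      rfl⟩
  exact mem_Bc.2 ⟨G, hG, hGw, e⟩

/-- Non-vanishing of `h_1 Sq^2` along families, modulo `h_0`. -/
theorem h1_Sq2 (s : ℕ) : ∃ J : ℕ, ∀ t : ℕ, 0 < t → 2 ^ J ∣ t → ∀ p ∈ Zc s t,
    sqTwo s p ∉ Bc (s + 2) (2 * t) →
    ∀ j, ∀ w ∈ Zc (s + 2) (2 ^ j * (2 * t) + 1),
      jux (s + 2) 1 (sqTwo s (p ^ 2 ^ j)) (xi 0 1 ^ 2) + jux (s + 2) 1 w (xi 0 1) ∉
        Bc (s + 3) (2 ^ j * (2 * t) + 2) := by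
  obtain ⟨J1, h1⟩ := h1_cobar (s + 2)
  obtain ⟨J2, h2⟩ := Fr_injective (s + 2)
  refine ⟨J1 + J2, fun t ht hd p hp hx j w hw h => hx ?_⟩
  have hd1 : 2 ^ J1 ∣ t := (pow_dvd_pow 2 (Nat.le_add_right _ _)).trans hd
  have hd2 : 2 ^ J2 ∣ t := (pow_dvd_pow 2 (Nat.le_add_left _ _)).trans hd
  have hH : sqTwo s p ∈ Hom (s + 2) (2 * t) := sqTwo_Hom hp.1
  rw [sqTwo_pow] at h
  have hH2 : sqTwo s p ^ 2 ^ j ∈ Hom (s + 2) (2 ^ j * (2 * t)) := by
    have := IsWeightedHomogeneous.pow hH (2 ^ j)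
    rwa [smul_eq_mul] at this
  have h3 := h1 (2 ^ j * (2 * t)) (by positivity) (Dvd.dvd.mul_left (Dvd.dvd.mul_left hd1 _) _) _
    hH2 w hw h
  exact h2 (2 * t) (Dvd.dvd.mul_left hd2 _) j _ hH h3

end Pool.Agent.Work.MP_701abf_gt.Cob
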